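import Mathlib

/-!
# Evans' problem, the algebra for `n = 6`

Each of the coefficients `W_l` is excluded to vanish: a sum of products of the nonnegative quantities is a multiple of
`W_l`.  The products were found by linear programming, `linarith` finds the exact multipliers.
-/

set_option autoImplicit false

namespace Pool.Agent.Lib.MP_fe2d2a_anEV6

set_option maxRecDepth 200000 in
private theorem six_two (p0 p1 p2 p3 p4 p5 p6 : ℝ) (hp0 : 0 < p0) (hp1 : 0 < p1) (hp2 : 0 < p2) (hp3 : 0 < p3) (hp4 : 0 < p4) (hp5 : 0 < p5) (hp6 : 0 < p6)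
    (hc1 : 0 < -1 * p0 ^ 2 + 20 * p0 * p2 - 10 * p0 * p4 - 24 * p1 ^ 2 + 80 * p1 * p3 - 75 * p2 ^ 2 + 10 * p2 * p6 - 80 * p3 * p5 + 75 * p4 ^ 2 - 20 * p4 * p6 + 24 * p5 ^ 2 + p6 ^ 2)
    (hc2 : 0 < 11 * p0 ^ 2 - 130 * p0 * p2 + 10 * p0 * p4 + 2 * p0 * p6 + 156 * p1 ^ 2 - 80 * p1 * p3 - 72 * p1 * p5 + 75 * p2 ^ 2 + 450 * p2 * p4 + 10 * p2 * p6 - 400 * p3 ^ 2 - 80 * p3 * p5 + 75 * p4 ^ 2 - 130 * p4 * p6 + 156 * p5 ^ 2 + 11 * p6 ^ 2)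
    (hc3 : 0 < -11 * p0 ^ 2 + 60 * p0 * p2 + 18 * p0 * p4 - 72 * p1 ^ 2 - 144 * p1 * p3 + 135 * p2 ^ 2 - 18 * p2 * p6 + 144 * p3 * p5 - 135 * p4 ^ 2 - 60 * p4 * p6 + 72 * p5 ^ 2 + 11 * p6 ^ 2)
    (hc4 : 0 < 33 * p0 ^ 2 - 30 * p0 * p2 - 34 * p0 * p4 - 2 * p0 * p6 + 36 * p1 ^ 2 + 272 * p1 * p3 + 72 * p1 * p5 - 255 * p2 ^ 2 - 450 * p2 * p4 - 34 * p2 * p6 + 400 * p3 ^ 2 + 272 * p3 * p5 - 255 * p4 ^ 2 - 30 * p4 * p6 + 36 * p5 ^ 2 + 33 * p6 ^ 2)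
    (hc5 : 0 < -33 * p0 ^ 2 - 60 * p0 * p2 - 10 * p0 * p4 + 72 * p1 ^ 2 + 80 * p1 * p3 - 75 * p2 ^ 2 + 10 * p2 * p6 - 80 * p3 * p5 + 75 * p4 ^ 2 + 60 * p4 * p6 - 72 * p5 ^ 2 + 33 * p6 ^ 2)
    (hW0 : 0 < p0 * p1 - 10 * p0 * p3 + 5 * p0 * p5 + 15 * p1 * p2 - 45 * p1 * p4 + 5 * p1 * p6 + 50 * p2 * p3 - 45 * p2 * p5 + 50 * p3 * p4 - 10 * p3 * p6 + 15 * p4 * p5 + p5 * p6)
    (hW1 : 0 < -1 * p0 * p1 + 6 * p0 * p3 - p0 * p5 - 9 * p1 * p2 + 9 * p1 * p4 + p1 * p6 - 10 * p2 * p3 - 9 * p2 * p5 + 10 * p3 * p4 - 6 * p3 * p6 + 9 * p4 * p5 + p5 * p6)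
    (hW3 : 0 ≤ -3 * p0 * p1 + 2 * p0 * p3 + p0 * p5 - 3 * p1 * p2 - 9 * p1 * p4 - p1 * p6 + 10 * p2 * p3 + 9 * p2 * p5 - 10 * p3 * p4 - 2 * p3 * p6 + 3 * p4 * p5 + 3 * p5 * p6)
    (hW4 : 0 ≤ 21 * p0 * p1 + 14 * p0 * p3 + p0 * p5 - 21 * p1 * p2 - 9 * p1 * p4 + p1 * p6 + 10 * p2 * p3 - 9 * p2 * p5 + 10 * p3 * p4 + 14 * p3 * p6 - 21 * p4 * p5 + 21 * p5 * p6)
    (hW5 : 0 ≤ -63 * p0 * p1 - 70 * p0 * p3 - 15 * p0 * p5 + 105 * p1 * p2 + 135 * p1 * p4 + 15 * p1 * p6 - 150 * p2 * p3 - 135 * p2 * p5 + 150 * p3 * p4 + 70 * p3 * p6 - 105 * p4 * p5 + 63 * p5 * p6)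
    (hN11 : 0 ≤ p1 * p1 - p0 * p2)
    (hN12 : 0 ≤ p1 * p2 - p0 * p3)
    (hN13 : 0 ≤ p1 * p3 - p0 * p4)
    (hN14 : 0 ≤ p1 * p4 - p0 * p5)
    (hN15 : 0 ≤ p1 * p5 - p0 * p6)
    (hN22 : 0 ≤ p2 * p2 - p1 * p3)
    (hN23 : 0 ≤ p2 * p3 - p1 * p4)
    (hN24 : 0 ≤ p2 * p4 - p1 * p5)
    (hN25 : 0 ≤ p2 * p5 - p1 * p6)
    (hN33 : 0 ≤ p3 * p3 - p2 * p4)
    (hN35 : 0 ≤ p3 * p5 - p2 * p6)
    (hN44 : 0 ≤ p4 * p4 - p3 * p5)
    (hN45 : 0 ≤ p4 * p5 - p3 * p6)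
    (hN55 : 0 ≤ p5 * p5 - p4 * p6)
    (hW : 9 * p0 * p1 - 26 * p0 * p3 - 3 * p0 * p5 + 39 * p1 * p2 + 27 * p1 * p4 - 3 * p1 * p6 - 30 * p2 * p3 + 27 * p2 * p5 - 30 * p3 * p4 - 26 * p3 * p6 + 39 * p4 * p5 + 9 * p5 * p6 = 0) : False := by
  have t0 := (mul_pos (mul_pos hc5 hp4) hp5)
  have t1 := (mul_nonneg hN14 hN55)
  have t2 := (mul_nonneg (mul_nonneg hW3 hp0.le) hp2.le)
  have t3 := (mul_nonneg hW5 hN44)
  have t4 := (mul_pos (mul_pos hc2 hp2) hp5)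
  have t5 := (mul_pos (mul_pos hc1 hp3) hp6)
  have t6 := (congrArg (fun z => z * (p0 * p4)) hW)
  have t7 := (mul_nonneg (mul_nonneg hN35 hp0.le) hp1.le)
  have t8 := (mul_nonneg hW5 hN55)
  have t9 := (mul_nonneg (mul_nonneg hW3 hp0.le) hp4.le)
  have t10 := (mul_nonneg (mul_nonneg hN35 hp1.le) hp6.le)
  have t11 := (mul_pos (mul_pos hc1 hp5) hp6)
  have t12 := (mul_nonneg (mul_nonneg hW5 hp0.le) hp6.le)
  have t13 := (congrArg (fun z => z * (p2 * p2)) hW)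
  have t14 := (mul_pos (mul_pos hc5 hp2) hp5)
  have t15 := (congrArg (fun z => z * (p0 * p2)) hW)
  have t16 := (mul_nonneg (mul_nonneg hW5 hp0.le) hp0.le)
  have t17 := (mul_pos (mul_pos (mul_pos hp0 hp0) hp0) hp1)
  have t18 := (congrArg (fun z => z * (p1 * p1)) hW)
  have t19 := (mul_pos (mul_pos hW1 hp1) hp5)
  have t20 := (mul_pos (mul_pos (mul_pos hp0 hp3) hp3) hp3)
  have t21 := (mul_nonneg hW4 hN13)
  have t22 := (congrArg (fun z => z * (p1 * p5)) hW)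
  have t23 := (mul_pos (mul_pos hc4 hp2) hp3)
  have t24 := (mul_nonneg hW5 hN35)
  have t25 := (mul_pos (mul_pos hc2 hp4) hp5)
  have t26 := (mul_nonneg (mul_nonneg hN14 hp0.le) hp6.le)
  have t27 := (congrArg (fun z => z * (p2 * p4)) hW)
  have t28 := (congrArg (fun z => z * (p5 * p5)) hW)
  have t29 := (mul_pos (mul_pos hW1 hp0) hp0)
  have t30 := (mul_pos (mul_pos (mul_pos hp0 hp1) hp1) hp3)
  have t31 := (mul_nonneg hc4.le hN45)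
  have t32 := (mul_nonneg (mul_nonneg hW5 hp0.le) hp4.le)
  have t33 := (mul_nonneg (mul_nonneg hN24 hp0.le) hp1.le)
  have t34 := (mul_nonneg (mul_nonneg hW3 hp1.le) hp5.le)
  have t35 := (mul_nonneg (mul_nonneg hN14 hp0.le) hp0.le)
  have t36 := (mul_nonneg (mul_nonneg hN12 hp4.le) hp6.le)
  have t37 := (mul_nonneg hc5.le hW3)
  have t38 := (mul_nonneg (mul_nonneg hW3 hp0.le) hp0.le)
  have t39 := (mul_nonneg (mul_nonneg hN11 hp3.le) hp6.le)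
  have t40 := (mul_nonneg (mul_nonneg hW3 hp1.le) hp3.le)
  have t41 := (mul_nonneg hc3.le hN14)
  have t42 := (mul_nonneg (mul_nonneg hN13 hp0.le) hp1.le)
  have t43 := (mul_nonneg hc4.le hN25)
  have t44 := (mul_nonneg (mul_nonneg hN15 hp0.le) hp5.le)
  have t45 := (mul_pos (mul_pos (mul_pos hp0 hp1) hp6) hp6)
  have t46 := (mul_nonneg (mul_nonneg hW5 hp1.le) hp1.le)
  have t47 := (mul_pos (mul_pos hc1 hp1) hp6)
  have t48 := (mul_nonneg hc1.le hW5)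
  have t49 := (mul_nonneg (mul_nonneg hW3 hp1.le) hp1.le)
  have t50 := (mul_nonneg (mul_nonneg hN55 hp1.le) hp6.le)
  have t51 := (congrArg (fun z => z * (p3 * p3)) hW)
  have t52 := (congrArg (fun z => z * (p3 * p5)) hW)
  have t53 := (congrArg (fun z => z * (p4 * p6)) hW)
  have t54 := (mul_nonneg (mul_nonneg hN13 hp0.le) hp3.le)
  have t55 := (mul_nonneg (mul_nonneg hW5 hp5.le) hp5.le)
  have t56 := (mul_nonneg (mul_nonneg hN45 hp0.le) hp6.le)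
  have t57 := (congrArg (fun z => z * (p0 * p6)) hW)
  have t58 := (mul_pos hc1 hW1)
  have t59 := (mul_nonneg (mul_nonneg hN14 hp0.le) hp4.le)
  have t60 := (mul_nonneg hc1.le hN23)
  have t61 := (mul_pos (mul_pos hc2 hp3) hp4)
  have t62 := (mul_nonneg hW5 hN24)
  have t63 := (mul_nonneg (mul_nonneg hN13 hp0.le) hp5.le)
  have t64 := (mul_nonneg (mul_nonneg hW4 hp1.le) hp1.le)
  have t65 := (mul_nonneg hW1.le hN11)
  have t66 := (congrArg (fun z => z * (p4 * p4)) hW)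
  have t67 := (mul_pos (mul_pos (mul_pos hp0 hp5) hp5) hp5)
  have t68 := (mul_nonneg hc4.le hN12)
  have t69 := (mul_nonneg hc5.le hN45)
  have t70 := (mul_pos (mul_pos hc4 hp3) hp4)
  have t71 := (mul_nonneg (mul_nonneg hN11 hp5.le) hp6.le)
  have t72 := (mul_pos (mul_pos hc2 hp1) hp2)
  have t73 := (mul_nonneg (mul_nonneg hN35 hp0.le) hp5.le)
  have t74 := (congrArg (fun z => z * (p2 * p6)) hW)
  have t75 := (congrArg (fun z => z * (p6 * p6)) hW)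
  have t76 := (mul_pos (mul_pos hc4 hp1) hp4)
  have t77 := (mul_pos (mul_pos hc3 hp1) hp2)
  have t78 := (mul_nonneg (mul_nonneg hN33 hp0.le) hp1.le)
  have t79 := (mul_pos (mul_pos hc2 hp0) hp5)
  have t80 := (mul_pos (mul_pos (mul_pos hp0 hp0) hp1) hp6)
  have t81 := (mul_pos (mul_pos hW1 hp1) hp1)
  have t82 := (mul_nonneg (mul_nonneg hN22 hp0.le) hp5.le)
  have t83 := (mul_pos (mul_pos hc2 hp1) hp4)
  have t84 := (mul_pos (mul_pos (mul_pos hp0 hp5) hp6) hp6)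
  have t85 := (mul_nonneg hc1.le hN14)
  have t86 := (mul_pos (mul_pos (mul_pos hp0 hp0) hp3) hp6)
  have t87 := (mul_pos (mul_pos hc4 hp4) hp5)
  have t88 := (congrArg (fun z => z * (p0 * p0)) hW)
  have t89 := (mul_pos (mul_pos hc5 hp1) hp6)
  have t90 := (mul_pos (mul_pos (mul_pos hp1 hp6) hp6) hp6)
  have t91 := (mul_pos (mul_pos (mul_pos hp0 hp0) hp2) hp5)
  have t92 := (mul_pos (mul_pos hW0 hp0) hp0)
  have t93 := (mul_pos (mul_pos hc2 hp2) hp3)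
  have t94 := (mul_nonneg (mul_nonneg hN44 hp1.le) hp6.le)
  have t95 := (mul_pos (mul_pos (mul_pos hp0 hp0) hp0) hp3)
  have t96 := (mul_nonneg (mul_nonneg hW5 hp2.le) hp6.le)
  have t97 := (mul_pos (mul_pos hc4 hp0) hp3)
  simp only [zero_mul] at t6 t13 t15 t18 t22 t27 t28 t51 t52 t53 t57 t66 t74 t75 t88
  linarith

set_option maxRecDepth 200000 in
private theorem six_three (p0 p1 p2 p3 p4 p5 p6 : ℝ) (hp0 : 0 < p0) (hp1 : 0 < p1) (hp2 : 0 < p2) (hp3 : 0 < p3) (hp4 : 0 < p4) (hp5 : 0 < p5) (hp6 : 0 < p6)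
    (hc1 : 0 < -1 * p0 ^ 2 + 20 * p0 * p2 - 10 * p0 * p4 - 24 * p1 ^ 2 + 80 * p1 * p3 - 75 * p2 ^ 2 + 10 * p2 * p6 - 80 * p3 * p5 + 75 * p4 ^ 2 - 20 * p4 * p6 + 24 * p5 ^ 2 + p6 ^ 2)
    (hc2 : 0 < 11 * p0 ^ 2 - 130 * p0 * p2 + 10 * p0 * p4 + 2 * p0 * p6 + 156 * p1 ^ 2 - 80 * p1 * p3 - 72 * p1 * p5 + 75 * p2 ^ 2 + 450 * p2 * p4 + 10 * p2 * p6 - 400 * p3 ^ 2 - 80 * p3 * p5 + 75 * p4 ^ 2 - 130 * p4 * p6 + 156 * p5 ^ 2 + 11 * p6 ^ 2)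
    (hc3 : 0 < -11 * p0 ^ 2 + 60 * p0 * p2 + 18 * p0 * p4 - 72 * p1 ^ 2 - 144 * p1 * p3 + 135 * p2 ^ 2 - 18 * p2 * p6 + 144 * p3 * p5 - 135 * p4 ^ 2 - 60 * p4 * p6 + 72 * p5 ^ 2 + 11 * p6 ^ 2)
    (hc5 : 0 < -33 * p0 ^ 2 - 60 * p0 * p2 - 10 * p0 * p4 + 72 * p1 ^ 2 + 80 * p1 * p3 - 75 * p2 ^ 2 + 10 * p2 * p6 - 80 * p3 * p5 + 75 * p4 ^ 2 + 60 * p4 * p6 - 72 * p5 ^ 2 + 33 * p6 ^ 2)
    (hc6 : 0 < 231 * p0 ^ 2 + 630 * p0 * p2 + 210 * p0 * p4 + 10 * p0 * p6 - 756 * p1 ^ 2 - 1680 * p1 * p3 - 360 * p1 * p5 + 1575 * p2 ^ 2 + 2250 * p2 * p4 + 210 * p2 * p6 - 2000 * p3 ^ 2 - 1680 * p3 * p5 + 1575 * p4 ^ 2 + 630 * p4 * p6 - 756 * p5 ^ 2 + 231 * p6 ^ 2)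
    (hW0 : 0 < p0 * p1 - 10 * p0 * p3 + 5 * p0 * p5 + 15 * p1 * p2 - 45 * p1 * p4 + 5 * p1 * p6 + 50 * p2 * p3 - 45 * p2 * p5 + 50 * p3 * p4 - 10 * p3 * p6 + 15 * p4 * p5 + p5 * p6)
    (hW1 : 0 < -1 * p0 * p1 + 6 * p0 * p3 - p0 * p5 - 9 * p1 * p2 + 9 * p1 * p4 + p1 * p6 - 10 * p2 * p3 - 9 * p2 * p5 + 10 * p3 * p4 - 6 * p3 * p6 + 9 * p4 * p5 + p5 * p6)
    (hW2 : 0 ≤ 9 * p0 * p1 - 26 * p0 * p3 - 3 * p0 * p5 + 39 * p1 * p2 + 27 * p1 * p4 - 3 * p1 * p6 - 30 * p2 * p3 + 27 * p2 * p5 - 30 * p3 * p4 - 26 * p3 * p6 + 39 * p4 * p5 + 9 * p5 * p6)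
    (hW4 : 0 ≤ 21 * p0 * p1 + 14 * p0 * p3 + p0 * p5 - 21 * p1 * p2 - 9 * p1 * p4 + p1 * p6 + 10 * p2 * p3 - 9 * p2 * p5 + 10 * p3 * p4 + 14 * p3 * p6 - 21 * p4 * p5 + 21 * p5 * p6)
    (hW5 : 0 ≤ -63 * p0 * p1 - 70 * p0 * p3 - 15 * p0 * p5 + 105 * p1 * p2 + 135 * p1 * p4 + 15 * p1 * p6 - 150 * p2 * p3 - 135 * p2 * p5 + 150 * p3 * p4 + 70 * p3 * p6 - 105 * p4 * p5 + 63 * p5 * p6)
    (hN11 : 0 ≤ p1 * p1 - p0 * p2)
    (hN12 : 0 ≤ p1 * p2 - p0 * p3)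
    (hN13 : 0 ≤ p1 * p3 - p0 * p4)
    (hN14 : 0 ≤ p1 * p4 - p0 * p5)
    (hN15 : 0 ≤ p1 * p5 - p0 * p6)
    (hN22 : 0 ≤ p2 * p2 - p1 * p3)
    (hN23 : 0 ≤ p2 * p3 - p1 * p4)
    (hN24 : 0 ≤ p2 * p4 - p1 * p5)
    (hN25 : 0 ≤ p2 * p5 - p1 * p6)
    (hN34 : 0 ≤ p3 * p4 - p2 * p5)
    (hN35 : 0 ≤ p3 * p5 - p2 * p6)
    (hN44 : 0 ≤ p4 * p4 - p3 * p5)
    (hN45 : 0 ≤ p4 * p5 - p3 * p6)
    (hN55 : 0 ≤ p5 * p5 - p4 * p6)
    (hW : -3 * p0 * p1 + 2 * p0 * p3 + p0 * p5 - 3 * p1 * p2 - 9 * p1 * p4 - p1 * p6 + 10 * p2 * p3 + 9 * p2 * p5 - 10 * p3 * p4 - 2 * p3 * p6 + 3 * p4 * p5 + 3 * p5 * p6 = 0) : False := by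
  have t0 := (mul_nonneg (mul_nonneg hc5.le hN55) hp5.le)
  have t1 := (mul_pos (mul_pos (mul_pos hc3 hp0) hp1) hp6)
  have t2 := (mul_pos (mul_pos (mul_pos hc1 hp1) hp6) hp6)
  have t3 := (congrArg (fun z => z * (p4 * p3 * p3)) hW)
  have t4 := (mul_nonneg (mul_nonneg (mul_nonneg hW5 hp4.le) hp4.le) hp6.le)
  have t5 := (mul_nonneg (mul_nonneg hc1.le hN14) hp4.le)
  have t6 := (mul_nonneg (mul_nonneg hW1.le hN24) hp6.le)
  have t7 := (mul_nonneg (mul_nonneg hc1.le hN22) hp5.le)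
  have t8 := (mul_pos (mul_pos (mul_pos hc3 hp5) hp5) hp5)
  have t9 := (congrArg (fun z => z * (p2 * p3 * p5)) hW)
  have t10 := (mul_nonneg (mul_nonneg hc1.le hW2) hp0.le)
  have t11 := (mul_nonneg (mul_nonneg hW5 hN22) hp2.le)
  have t12 := (mul_nonneg (mul_nonneg hc3.le hN55) hp5.le)
  have t13 := (mul_nonneg (mul_nonneg hW5 hN14) hp1.le)
  have t14 := (mul_nonneg (mul_nonneg (mul_nonneg hW5 hp0.le) hp4.le) hp4.le)
  have t15 := (mul_nonneg (mul_nonneg hc5.le hW4) hp2.le)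
  have t16 := (mul_nonneg (mul_nonneg hc3.le hN23) hp0.le)
  have t17 := (mul_nonneg (mul_nonneg hW5 hN23) hp5.le)
  have t18 := (mul_pos (mul_pos hc3 hW1) hp2)
  have t19 := (mul_nonneg (mul_nonneg hc3.le hW5) hp0.le)
  have t20 := (mul_nonneg (mul_nonneg hW1.le hW2) hp1.le)
  have t21 := (congrArg (fun z => z * (p6 * p1 * p3)) hW)
  have t22 := (congrArg (fun z => z * (p2 * p2 * p2)) hW)
  have t23 := (mul_nonneg (mul_nonneg (mul_nonneg hW5 hp1.le) hp2.le) hp5.le)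
  have t24 := (mul_nonneg (mul_nonneg hW5 hN25) hp1.le)
  have t25 := (mul_nonneg (mul_nonneg (mul_nonneg hW5 hp0.le) hp4.le) hp6.le)
  have t26 := (mul_pos (mul_pos (mul_pos hc1 hp1) hp1) hp5)
  have t27 := (mul_nonneg (mul_nonneg hc5.le hN25) hp0.le)
  have t28 := (mul_pos (mul_pos (mul_pos hc5 hp1) hp1) hp5)
  have t29 := (mul_pos (mul_pos (mul_pos hc5 hp2) hp5) hp6)
  have t30 := (mul_nonneg (mul_nonneg hc3.le hN44) hp3.le)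
  have t31 := (mul_pos (mul_pos (mul_pos hc3 hp0) hp5) hp6)
  have t32 := (mul_nonneg (mul_nonneg (mul_nonneg hW5 hp0.le) hp1.le) hp5.le)
  have t33 := (congrArg (fun z => z * (p2 * p2 * p6)) hW)
  have t34 := (congrArg (fun z => z * (p2 * p4 * p4)) hW)
  have t35 := (mul_pos (mul_pos hc1 hW1) hp0)
  have t36 := (mul_pos (mul_pos (mul_pos hW1 hp0) hp0) hp4)
  have t37 := (mul_pos (mul_pos hc6 hW1) hp0)
  have t38 := (congrArg (fun z => z * (p4 * p5 * p5)) hW)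
  have t39 := (mul_pos (mul_pos hc6 hW1) hp4)
  have t40 := (mul_nonneg (mul_nonneg hc5.le hW4) hp4.le)
  have t41 := (mul_nonneg (mul_nonneg hc1.le hN12) hp4.le)
  have t42 := (congrArg (fun z => z * (p0 * p6 * p6)) hW)
  have t43 := (mul_pos (mul_pos (mul_pos hc3 hp1) hp2) hp6)
  have t44 := (mul_pos (mul_pos (mul_pos hc5 hp1) hp5) hp5)
  have t45 := (mul_nonneg (mul_nonneg hW1.le hN12) hp5.le)
  have t46 := (mul_pos (mul_pos (mul_pos hc3 hp1) hp1) hp5)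
  have t47 := (mul_pos (mul_pos (mul_pos hc1 hp2) hp3) hp6)
  have t48 := (mul_pos (mul_pos (mul_pos hc5 hp1) hp2) hp6)
  have t49 := (congrArg (fun z => z * (p2 * p4 * p6)) hW)
  have t50 := (mul_nonneg (mul_nonneg hc6.le hW5) hp6.le)
  have t51 := (mul_pos (mul_pos (mul_pos hc5 hp1) hp1) hp3)
  have t52 := (mul_pos (mul_pos (mul_pos hc1 hp0) hp3) hp6)
  have t53 := (mul_pos (mul_pos (mul_pos hc5 hp2) hp3) hp6)
  have t54 := (mul_nonneg (mul_nonneg hW1.le hN11) hp0.le)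
  have t55 := (congrArg (fun z => z * (p0 * p0 * p4)) hW)
  have t56 := (mul_pos (mul_pos (mul_pos hc3 hp1) hp6) hp6)
  have t57 := (mul_pos (mul_pos (mul_pos hW1 hp0) hp0) hp6)
  have t58 := (mul_nonneg (mul_nonneg hc3.le hN22) hp3.le)
  have t59 := (congrArg (fun z => z * (p2 * p6 * p6)) hW)
  have t60 := (mul_nonneg (mul_nonneg hc1.le hN44) hp1.le)
  have t61 := (mul_nonneg (mul_nonneg hc5.le hN14) hp6.le)
  have t62 := (mul_nonneg (mul_nonneg hW1.le hN24) hp0.le)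
  have t63 := (mul_nonneg (mul_nonneg hc3.le hW4) hp4.le)
  have t64 := (mul_pos (mul_pos (mul_pos hc3 hp2) hp5) hp6)
  have t65 := (congrArg (fun z => z * (p2 * p1 * p5)) hW)
  have t66 := (mul_nonneg (mul_nonneg hW5 hN35) hp6.le)
  have t67 := (mul_pos (mul_pos (mul_pos hc5 hp3) hp3) hp3)
  have t68 := (mul_pos (mul_pos (mul_pos hc5 hp0) hp3) hp6)
  have t69 := (mul_nonneg (mul_nonneg hW5 hN45) hp5.le)
  have t70 := (mul_nonneg (mul_nonneg hc1.le hW4) hp6.le)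
  have t71 := (congrArg (fun z => z * (p0 * p1 * p3)) hW)
  have t72 := (mul_nonneg (mul_nonneg hW5 hW5) hp1.le)
  have t73 := (mul_pos (mul_pos hW1 hW1) hp1)
  have t74 := (mul_pos (mul_pos (mul_pos hc1 hp1) hp2) hp6)
  have t75 := (mul_nonneg (mul_nonneg hc5.le hN34) hp0.le)
  have t76 := (mul_nonneg (mul_nonneg hc1.le hN12) hp0.le)
  have t77 := (mul_nonneg (mul_nonneg hc6.le hW5) hp4.le)
  have t78 := (mul_pos (mul_pos (mul_pos hc5 hp0) hp1) hp4)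
  have t79 := (mul_nonneg (mul_nonneg hW1.le hW5) hp3.le)
  have t80 := (congrArg (fun z => z * (p4 * p1 * p5)) hW)
  have t81 := (mul_pos (mul_pos hc3 hW0) hp6)
  have t82 := (mul_nonneg (mul_nonneg hW1.le hW4) hp1.le)
  have t83 := (mul_nonneg (mul_nonneg (mul_nonneg hW5 hp0.le) hp0.le) hp0.le)
  have t84 := (mul_nonneg (mul_nonneg hc5.le hN25) hp6.le)
  have t85 := (mul_pos (mul_pos hc2 hW1) hp4)
  have t86 := (mul_nonneg (mul_nonneg hW5 hN55) hp2.le)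
  have t87 := (congrArg (fun z => z * (p4 * p4 * p6)) hW)
  have t88 := (mul_pos (mul_pos hc2 hW1) hp6)
  have t89 := (mul_pos (mul_pos (mul_pos hc3 hp3) hp6) hp6)
  have t90 := (congrArg (fun z => z * (p0 * p3 * p3)) hW)
  have t91 := (mul_pos (mul_pos (mul_pos hc3 hp0) hp2) hp3)
  have t92 := (mul_pos (mul_pos (mul_pos hc3 hp0) hp4) hp5)
  have t93 := (mul_pos (mul_pos hc5 hW0) hp4)
  have t94 := (congrArg (fun z => z * (p6 * p3 * p5)) hW)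
  have t95 := (mul_pos (mul_pos (mul_pos hW1 hp4) hp6) hp6)
  have t96 := (mul_nonneg (mul_nonneg hc2.le hW5) hp2.le)
  have t97 := (congrArg (fun z => z * (p2 * p2 * p4)) hW)
  have t98 := (mul_pos (mul_pos (mul_pos hc5 hp3) hp3) hp5)
  have t99 := (mul_nonneg (mul_nonneg hc5.le hN23) hp6.le)
  have t100 := (congrArg (fun z => z * (p0 * p0 * p2)) hW)
  have t101 := (congrArg (fun z => z * (p4 * p6 * p6)) hW)
  have t102 := (mul_pos (mul_pos hW1 hW1) hp3)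
  have t103 := (congrArg (fun z => z * (p0 * p4 * p6)) hW)
  have t104 := (mul_pos (mul_pos hc6 hW1) hp2)
  have t105 := (congrArg (fun z => z * (p2 * p3 * p3)) hW)
  have t106 := (mul_pos (mul_pos (mul_pos hW1 hp0) hp6) hp6)
  have t107 := (mul_nonneg (mul_nonneg hW5 hN24) hp0.le)
  have t108 := (mul_pos (mul_pos hc1 hc2) hp3)
  have t109 := (mul_pos (mul_pos hc2 hc3) hp3)
  have t110 := (mul_pos (mul_pos (mul_pos hc5 hp0) hp3) hp4)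
  have t111 := (congrArg (fun z => z * (p0 * p5 * p5)) hW)
  have t112 := (mul_nonneg (mul_nonneg hW5 hN14) hp5.le)
  have t113 := (mul_nonneg (mul_nonneg hc1.le hN11) hp1.le)
  have t114 := (mul_nonneg (mul_nonneg hW1.le hN11) hp2.le)
  have t115 := (congrArg (fun z => z * (p0 * p2 * p6)) hW)
  have t116 := (mul_nonneg (mul_nonneg hW1.le hN55) hp2.le)
  have t117 := (mul_nonneg (mul_nonneg hW1.le hN11) hp4.le)
  have t118 := (mul_nonneg (mul_nonneg hc5.le hN14) hp0.le)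
  have t119 := (mul_pos (mul_pos (mul_pos hc1 hp1) hp4) hp6)
  have t120 := (congrArg (fun z => z * (p2 * p1 * p3)) hW)
  have t121 := (mul_nonneg (mul_nonneg (mul_nonneg hW5 hp0.le) hp0.le) hp2.le)
  have t122 := (mul_pos (mul_pos (mul_pos hc3 hp1) hp5) hp5)
  have t123 := (congrArg (fun z => z * (p6 * p1 * p5)) hW)
  have t124 := (congrArg (fun z => z * (p0 * p0 * p0)) hW)
  have t125 := (mul_pos (mul_pos (mul_pos hW1 hp1) hp1) hp6)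
  have t126 := (congrArg (fun z => z * (p4 * p1 * p1)) hW)
  have t127 := (mul_pos (mul_pos (mul_pos hW1 hp2) hp6) hp6)
  have t128 := (congrArg (fun z => z * (p0 * p3 * p5)) hW)
  have t129 := (mul_nonneg (mul_nonneg hW5 hN15) hp0.le)
  have t130 := (mul_pos (mul_pos hc1 hc2) hp1)
  have t131 := (congrArg (fun z => z * (p0 * p4 * p4)) hW)
  have t132 := (mul_nonneg (mul_nonneg (mul_nonneg hW5 hp0.le) hp2.le) hp6.le)
  have t133 := (mul_pos (mul_pos (mul_pos hc3 hp1) hp3) hp5)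
  have t134 := (mul_pos (mul_pos hc6 hW1) hp6)
  have t135 := (congrArg (fun z => z * (p2 * p5 * p5)) hW)
  have t136 := (mul_nonneg (mul_nonneg hW5 hN24) hp6.le)
  have t137 := (mul_nonneg (mul_nonneg hc1.le hW4) hp0.le)
  have t138 := (mul_pos (mul_pos (mul_pos hc3 hp0) hp0) hp3)
  have t139 := (mul_pos (mul_pos (mul_pos hW1 hp0) hp4) hp6)
  have t140 := (mul_pos (mul_pos (mul_pos hc3 hp0) hp0) hp5)
  have t141 := (congrArg (fun z => z * (p6 * p6 * p6)) hW)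
  have t142 := (mul_nonneg (mul_nonneg hc1.le hN55) hp3.le)
  have t143 := (congrArg (fun z => z * (p0 * p1 * p5)) hW)
  have t144 := (mul_nonneg (mul_nonneg (mul_nonneg hW5 hp2.le) hp2.le) hp6.le)
  have t145 := (mul_pos (mul_pos (mul_pos hc3 hp1) hp4) hp4)
  have t146 := (mul_nonneg (mul_nonneg hc1.le hW5) hp0.le)
  have t147 := (mul_pos (mul_pos (mul_pos hc5 hp1) hp3) hp3)
  have t148 := (mul_pos (mul_pos (mul_pos hc5 hp0) hp4) hp5)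
  have t149 := (congrArg (fun z => z * (p4 * p4 * p4)) hW)
  have t150 := (mul_nonneg (mul_nonneg (mul_nonneg hW5 hp3.le) hp3.le) hp4.le)
  have t151 := (congrArg (fun z => z * (p2 * p1 * p1)) hW)
  have t152 := (mul_nonneg (mul_nonneg (mul_nonneg hW5 hp4.le) hp5.le) hp5.le)
  have t153 := (mul_pos (mul_pos (mul_pos hc3 hp0) hp3) hp6)
  have t154 := (congrArg (fun z => z * (p4 * p1 * p3)) hW)
  have t155 := (mul_pos (mul_pos (mul_pos hc3 hp2) hp2) hp5)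
  have t156 := (mul_pos (mul_pos (mul_pos hc1 hp0) hp2) hp5)
  have t157 := (congrArg (fun z => z * (p4 * p3 * p5)) hW)
  have t158 := (mul_pos (mul_pos (mul_pos hc3 hp1) hp4) hp6)
  have t159 := (mul_nonneg (mul_nonneg hW5 hN22) hp0.le)
  have t160 := (mul_nonneg (mul_nonneg hc5.le hN12) hp0.le)
  have t161 := (mul_pos (mul_pos hc2 hc5) hp3)
  have t162 := (mul_pos (mul_pos (mul_pos hc3 hp0) hp2) hp5)
  have t163 := (mul_nonneg (mul_nonneg hc5.le hN34) hp2.le)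
  have t164 := (mul_nonneg (mul_nonneg hc6.le hW5) hp0.le)
  have t165 := (congrArg (fun z => z * (p0 * p0 * p6)) hW)
  have t166 := (congrArg (fun z => z * (p6 * p5 * p5)) hW)
  have t167 := (congrArg (fun z => z * (p0 * p2 * p2)) hW)
  have t168 := (mul_pos (mul_pos (mul_pos hc1 hp0) hp1) hp6)
  have t169 := (congrArg (fun z => z * (p6 * p1 * p1)) hW)
  have t170 := (mul_pos (mul_pos hc2 hW1) hp0)
  have t171 := (mul_pos (mul_pos hc5 hc6) hp3)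
  have t172 := (mul_nonneg (mul_nonneg hc1.le hN55) hp5.le)
  have t173 := (congrArg (fun z => z * (p6 * p3 * p3)) hW)
  have t174 := (mul_nonneg (mul_nonneg hW1.le hN35) hp2.le)
  have t175 := (congrArg (fun z => z * (p0 * p2 * p4)) hW)
  have t176 := (mul_nonneg (mul_nonneg hc1.le hN11) hp3.le)
  have t177 := (mul_nonneg (mul_nonneg hW5 hN13) hp0.le)
  have t178 := (mul_nonneg (mul_nonneg hW4 hW5) hp3.le)
  have t179 := (mul_nonneg (mul_nonneg hc5.le hN45) hp6.le)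
  have t180 := (mul_nonneg (mul_nonneg hc3.le hN11) hp1.le)
  have t181 := (mul_pos (mul_pos (mul_pos hc5 hp1) hp3) hp5)
  have t182 := (mul_nonneg (mul_nonneg hc5.le hN11) hp1.le)
  have t183 := (mul_pos (mul_pos (mul_pos hW1 hp0) hp4) hp4)
  have t184 := (mul_nonneg (mul_nonneg hW5 hN15) hp6.le)
  have t185 := (mul_nonneg (mul_nonneg hc1.le hN14) hp0.le)
  have t186 := (mul_pos (mul_pos (mul_pos hW1 hp0) hp2) hp6)
  have t187 := (mul_nonneg (mul_nonneg hc3.le hN44) hp5.le)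
  have t188 := (mul_nonneg (mul_nonneg hc3.le hW4) hp2.le)
  have t189 := (mul_nonneg (mul_nonneg (mul_nonneg hW5 hp4.le) hp6.le) hp6.le)
  simp only [zero_mul] at t3 t9 t21 t22 t33 t34 t38 t42 t49 t55 t59 t65 t71 t80 t87 t90 t94 t97 t100 t101 t103 t105 t111 t115 t120 t123 t124 t126 t128 t131 t135 t141 t143 t149 t151 t154 t157 t165 t166 t167 t169 t173 t175
  linarith

set_option maxRecDepth 200000 in
private theorem six_four (p0 p1 p2 p3 p4 p5 p6 : ℝ) (hp0 : 0 < p0) (hp1 : 0 < p1) (hp2 : 0 < p2) (hp3 : 0 < p3) (hp4 : 0 < p4) (hp5 : 0 < p5) (hp6 : 0 < p6)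
    (hc1 : 0 < -1 * p0 ^ 2 + 20 * p0 * p2 - 10 * p0 * p4 - 24 * p1 ^ 2 + 80 * p1 * p3 - 75 * p2 ^ 2 + 10 * p2 * p6 - 80 * p3 * p5 + 75 * p4 ^ 2 - 20 * p4 * p6 + 24 * p5 ^ 2 + p6 ^ 2)
    (hc2 : 0 < 11 * p0 ^ 2 - 130 * p0 * p2 + 10 * p0 * p4 + 2 * p0 * p6 + 156 * p1 ^ 2 - 80 * p1 * p3 - 72 * p1 * p5 + 75 * p2 ^ 2 + 450 * p2 * p4 + 10 * p2 * p6 - 400 * p3 ^ 2 - 80 * p3 * p5 + 75 * p4 ^ 2 - 130 * p4 * p6 + 156 * p5 ^ 2 + 11 * p6 ^ 2)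
    (hc3 : 0 < -11 * p0 ^ 2 + 60 * p0 * p2 + 18 * p0 * p4 - 72 * p1 ^ 2 - 144 * p1 * p3 + 135 * p2 ^ 2 - 18 * p2 * p6 + 144 * p3 * p5 - 135 * p4 ^ 2 - 60 * p4 * p6 + 72 * p5 ^ 2 + 11 * p6 ^ 2)
    (hc4 : 0 < 33 * p0 ^ 2 - 30 * p0 * p2 - 34 * p0 * p4 - 2 * p0 * p6 + 36 * p1 ^ 2 + 272 * p1 * p3 + 72 * p1 * p5 - 255 * p2 ^ 2 - 450 * p2 * p4 - 34 * p2 * p6 + 400 * p3 ^ 2 + 272 * p3 * p5 - 255 * p4 ^ 2 - 30 * p4 * p6 + 36 * p5 ^ 2 + 33 * p6 ^ 2)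
    (hc5 : 0 < -33 * p0 ^ 2 - 60 * p0 * p2 - 10 * p0 * p4 + 72 * p1 ^ 2 + 80 * p1 * p3 - 75 * p2 ^ 2 + 10 * p2 * p6 - 80 * p3 * p5 + 75 * p4 ^ 2 + 60 * p4 * p6 - 72 * p5 ^ 2 + 33 * p6 ^ 2)
    (hc6 : 0 < 231 * p0 ^ 2 + 630 * p0 * p2 + 210 * p0 * p4 + 10 * p0 * p6 - 756 * p1 ^ 2 - 1680 * p1 * p3 - 360 * p1 * p5 + 1575 * p2 ^ 2 + 2250 * p2 * p4 + 210 * p2 * p6 - 2000 * p3 ^ 2 - 1680 * p3 * p5 + 1575 * p4 ^ 2 + 630 * p4 * p6 - 756 * p5 ^ 2 + 231 * p6 ^ 2)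
    (hW1 : 0 < -1 * p0 * p1 + 6 * p0 * p3 - p0 * p5 - 9 * p1 * p2 + 9 * p1 * p4 + p1 * p6 - 10 * p2 * p3 - 9 * p2 * p5 + 10 * p3 * p4 - 6 * p3 * p6 + 9 * p4 * p5 + p5 * p6)
    (hW2 : 0 ≤ 9 * p0 * p1 - 26 * p0 * p3 - 3 * p0 * p5 + 39 * p1 * p2 + 27 * p1 * p4 - 3 * p1 * p6 - 30 * p2 * p3 + 27 * p2 * p5 - 30 * p3 * p4 - 26 * p3 * p6 + 39 * p4 * p5 + 9 * p5 * p6)
    (hW3 : 0 ≤ -3 * p0 * p1 + 2 * p0 * p3 + p0 * p5 - 3 * p1 * p2 - 9 * p1 * p4 - p1 * p6 + 10 * p2 * p3 + 9 * p2 * p5 - 10 * p3 * p4 - 2 * p3 * p6 + 3 * p4 * p5 + 3 * p5 * p6)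
    (hW5 : 0 ≤ -63 * p0 * p1 - 70 * p0 * p3 - 15 * p0 * p5 + 105 * p1 * p2 + 135 * p1 * p4 + 15 * p1 * p6 - 150 * p2 * p3 - 135 * p2 * p5 + 150 * p3 * p4 + 70 * p3 * p6 - 105 * p4 * p5 + 63 * p5 * p6)
    (hN11 : 0 ≤ p1 * p1 - p0 * p2)
    (hN12 : 0 ≤ p1 * p2 - p0 * p3)
    (hN13 : 0 ≤ p1 * p3 - p0 * p4)
    (hN14 : 0 ≤ p1 * p4 - p0 * p5)
    (hN15 : 0 ≤ p1 * p5 - p0 * p6)
    (hN22 : 0 ≤ p2 * p2 - p1 * p3)
    (hN23 : 0 ≤ p2 * p3 - p1 * p4)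
    (hN24 : 0 ≤ p2 * p4 - p1 * p5)
    (hN25 : 0 ≤ p2 * p5 - p1 * p6)
    (hN33 : 0 ≤ p3 * p3 - p2 * p4)
    (hN34 : 0 ≤ p3 * p4 - p2 * p5)
    (hN35 : 0 ≤ p3 * p5 - p2 * p6)
    (hN44 : 0 ≤ p4 * p4 - p3 * p5)
    (hN45 : 0 ≤ p4 * p5 - p3 * p6)
    (hN55 : 0 ≤ p5 * p5 - p4 * p6)
    (hW : 21 * p0 * p1 + 14 * p0 * p3 + p0 * p5 - 21 * p1 * p2 - 9 * p1 * p4 + p1 * p6 + 10 * p2 * p3 - 9 * p2 * p5 + 10 * p3 * p4 + 14 * p3 * p6 - 21 * p4 * p5 + 21 * p5 * p6 = 0) : False := by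
  have t0 := (mul_nonneg (mul_nonneg hW1.le hN15) hp0.le)
  have t1 := (mul_nonneg (mul_nonneg hc3.le hN44) hp1.le)
  have t2 := (mul_nonneg (mul_nonneg hW1.le hN33) hp0.le)
  have t3 := (mul_nonneg (mul_nonneg hc6.le hN13) hp5.le)
  have t4 := (mul_pos (mul_pos (mul_pos (mul_pos hp0 hp1) hp1) hp3) hp6)
  have t5 := (mul_nonneg (mul_nonneg hW1.le hW2) hp3.le)
  have t6 := (mul_pos (mul_pos (mul_pos hc1 hp2) hp3) hp6)
  have t7 := (mul_nonneg (mul_nonneg (mul_nonneg hW2 hp0.le) hp3.le) hp5.le)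
  have t8 := (mul_nonneg (mul_nonneg (mul_nonneg hW5 hp0.le) hp3.le) hp3.le)
  have t9 := (congrArg (fun z => z * (p0 * p3 * p3)) hW)
  have t10 := (mul_nonneg (mul_nonneg hc2.le hN45) hp4.le)
  have t11 := (mul_nonneg (mul_nonneg hc6.le hN13) hp1.le)
  have t12 := (congrArg (fun z => z * (p6 * p1 * p3)) hW)
  have t13 := (mul_nonneg (mul_nonneg hc1.le hN55) hp5.le)
  have t14 := (mul_nonneg (mul_nonneg hW1.le hN55) hp4.le)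
  have t15 := (mul_nonneg (mul_nonneg hW1.le hN35) hp6.le)
  have t16 := (mul_nonneg (mul_nonneg (mul_nonneg hW2 hp2.le) hp5.le) hp5.le)
  have t17 := (congrArg (fun z => z * (p6 * p1 * p1)) hW)
  have t18 := (mul_pos (mul_pos (mul_pos hc3 hp0) hp0) hp3)
  have t19 := (congrArg (fun z => z * (p2 * p4 * p4)) hW)
  have t20 := (mul_nonneg (mul_nonneg (mul_nonneg hN33 hp1.le) hp1.le) hp1.le)
  have t21 := (mul_pos (mul_pos (mul_pos hc6 hp4) hp4) hp5)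
  have t22 := (mul_pos (mul_pos (mul_pos hc4 hp0) hp3) hp4)
  have t23 := (mul_nonneg (mul_nonneg hW5 hN55) hp6.le)
  have t24 := (congrArg (fun z => z * (p4 * p4 * p4)) hW)
  have t25 := (mul_nonneg (mul_nonneg (mul_nonneg hN55 hp1.le) hp1.le) hp1.le)
  have t26 := (congrArg (fun z => z * (p6 * p6 * p6)) hW)
  have t27 := (mul_nonneg (mul_nonneg hc1.le hN24) hp1.le)
  have t28 := (mul_pos (mul_pos (mul_pos hc6 hp5) hp5) hp5)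
  have t29 := (congrArg (fun z => z * (p4 * p5 * p5)) hW)
  have t30 := (congrArg (fun z => z * (p0 * p0 * p0)) hW)
  have t31 := (mul_nonneg (mul_nonneg (mul_nonneg hN33 hp0.le) hp0.le) hp3.le)
  have t32 := (congrArg (fun z => z * (p2 * p4 * p6)) hW)
  have t33 := (congrArg (fun z => z * (p4 * p6 * p6)) hW)
  have t34 := (mul_pos (mul_pos (mul_pos hc3 hp3) hp5) hp5)
  have t35 := (mul_pos (mul_pos (mul_pos hc6 hp5) hp6) hp6)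
  have t36 := (mul_nonneg (mul_nonneg (mul_nonneg hW5 hp0.le) hp6.le) hp6.le)
  have t37 := (mul_pos (mul_pos (mul_pos (mul_pos hp0 hp1) hp6) hp6) hp6)
  have t38 := (mul_pos (mul_pos (mul_pos hc6 hp2) hp2) hp3)
  have t39 := (mul_nonneg (mul_nonneg (mul_nonneg hW2 hp0.le) hp0.le) hp4.le)
  have t40 := (mul_nonneg (mul_nonneg hc1.le hN44) hp3.le)
  have t41 := (congrArg (fun z => z * (p4 * p1 * p5)) hW)
  have t42 := (mul_nonneg (mul_nonneg (mul_nonneg hW2 hp0.le) hp6.le) hp6.le)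
  have t43 := (mul_nonneg (mul_nonneg hc3.le hW2) hp4.le)
  have t44 := (mul_nonneg (mul_nonneg (mul_nonneg hW5 hp0.le) hp1.le) hp5.le)
  have t45 := (mul_nonneg (mul_nonneg hc1.le hW3) hp2.le)
  have t46 := (mul_pos (mul_pos (mul_pos hc2 hp1) hp4) hp6)
  have t47 := (congrArg (fun z => z * (p2 * p5 * p5)) hW)
  have t48 := (mul_nonneg (mul_nonneg (mul_nonneg hN55 hp3.le) hp6.le) hp6.le)
  have t49 := (mul_nonneg (mul_nonneg (mul_nonneg hN55 hp0.le) hp0.le) hp5.le)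
  have t50 := (mul_nonneg (mul_nonneg hW2 hN55) hp2.le)
  have t51 := (mul_pos (mul_pos (mul_pos (mul_pos hp0 hp0) hp1) hp4) hp6)
  have t52 := (mul_nonneg (mul_nonneg hc3.le hN55) hp5.le)
  have t53 := (mul_nonneg (mul_nonneg hc1.le hN12) hp6.le)
  have t54 := (mul_nonneg (mul_nonneg (mul_nonneg hN25 hp6.le) hp6.le) hp6.le)
  have t55 := (mul_nonneg (mul_nonneg (mul_nonneg hW5 hp0.le) hp1.le) hp1.le)
  have t56 := (mul_pos (mul_pos (mul_pos hc1 hp0) hp1) hp4)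
  have t57 := (congrArg (fun z => z * (p4 * p4 * p6)) hW)
  have t58 := (mul_pos (mul_pos (mul_pos hc2 hp3) hp6) hp6)
  have t59 := (mul_pos (mul_pos (mul_pos (mul_pos hp0 hp0) hp1) hp1) hp5)
  have t60 := (mul_nonneg (mul_nonneg (mul_nonneg hN35 hp0.le) hp3.le) hp6.le)
  have t61 := (mul_nonneg (mul_nonneg (mul_nonneg hW5 hp0.le) hp2.le) hp6.le)
  have t62 := (congrArg (fun z => z * (p0 * p0 * p6)) hW)
  have t63 := (mul_pos (mul_pos (mul_pos (mul_pos hp0 hp1) hp2) hp2) hp2)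
  have t64 := (mul_pos (mul_pos (mul_pos hc3 hp2) hp3) hp6)
  have t65 := (mul_pos (mul_pos hc1 hc1) hp5)
  have t66 := (mul_nonneg (mul_nonneg hc6.le hN11) hp1.le)
  have t67 := (mul_nonneg (mul_nonneg hc2.le hN34) hp2.le)
  have t68 := (mul_pos (mul_pos (mul_pos hc1 hp1) hp1) hp3)
  have t69 := (mul_pos (mul_pos (mul_pos hc1 hp1) hp6) hp6)
  have t70 := (mul_nonneg (mul_nonneg (mul_nonneg hN22 hp0.le) hp0.le) hp1.le)
  have t71 := (mul_nonneg (mul_nonneg hc4.le hN12) hp0.le)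
  have t72 := (mul_nonneg (mul_nonneg hW1.le hN11) hp6.le)
  have t73 := (mul_pos (mul_pos (mul_pos (mul_pos hp0 hp0) hp3) hp6) hp6)
  have t74 := (mul_nonneg (mul_nonneg hW2 hW2) hp1.le)
  have t75 := (mul_pos (mul_pos (mul_pos hc3 hp5) hp6) hp6)
  have t76 := (mul_nonneg (mul_nonneg (mul_nonneg hN23 hp6.le) hp6.le) hp6.le)
  have t77 := (mul_nonneg (mul_nonneg (mul_nonneg hN14 hp0.le) hp6.le) hp6.le)
  have t78 := (mul_pos (mul_pos (mul_pos hc4 hp1) hp1) hp5)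
  have t79 := (congrArg (fun z => z * (p0 * p4 * p4)) hW)
  have t80 := (mul_nonneg (mul_nonneg hc1.le hN14) hp6.le)
  have t81 := (mul_pos (mul_pos (mul_pos hc5 hp1) hp1) hp5)
  have t82 := (congrArg (fun z => z * (p2 * p2 * p6)) hW)
  have t83 := (mul_pos (mul_pos hc3 hW1) hp2)
  have t84 := (mul_nonneg (mul_nonneg (mul_nonneg hN45 hp6.le) hp6.le) hp6.le)
  have t85 := (mul_nonneg (mul_nonneg hW1.le hN11) hp4.le)
  have t86 := (mul_nonneg (mul_nonneg (mul_nonneg hW2 hp0.le) hp1.le) hp5.le)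
  have t87 := (mul_pos (mul_pos (mul_pos (mul_pos hp0 hp0) hp1) hp1) hp1)
  have t88 := (mul_pos (mul_pos (mul_pos hc6 hp3) hp5) hp5)
  have t89 := (mul_nonneg (mul_nonneg (mul_nonneg hN34 hp0.le) hp2.le) hp6.le)
  have t90 := (mul_nonneg (mul_nonneg hc4.le hN14) hp4.le)
  have t91 := (congrArg (fun z => z * (p2 * p6 * p6)) hW)
  have t92 := (mul_pos (mul_pos (mul_pos hc4 hp2) hp3) hp4)
  have t93 := (mul_nonneg (mul_nonneg (mul_nonneg hN11 hp0.le) hp2.le) hp3.le)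
  have t94 := (congrArg (fun z => z * (p0 * p2 * p2)) hW)
  have t95 := (mul_nonneg (mul_nonneg (mul_nonneg hW5 hp0.le) hp5.le) hp5.le)
  have t96 := (mul_nonneg (mul_nonneg hc4.le hN35) hp5.le)
  have t97 := (mul_nonneg (mul_nonneg (mul_nonneg hN44 hp0.le) hp3.le) hp6.le)
  have t98 := (mul_pos (mul_pos (mul_pos hc4 hp2) hp4) hp5)
  have t99 := (congrArg (fun z => z * (p0 * p1 * p5)) hW)
  have t100 := (mul_nonneg (mul_nonneg (mul_nonneg hN25 hp0.le) hp0.le) hp2.le)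
  have t101 := (mul_nonneg (mul_nonneg hc6.le hN15) hp1.le)
  have t102 := (congrArg (fun z => z * (p6 * p5 * p5)) hW)
  have t103 := (congrArg (fun z => z * (p0 * p4 * p6)) hW)
  have t104 := (mul_pos (mul_pos (mul_pos hc6 hp1) hp4) hp4)
  have t105 := (mul_nonneg (mul_nonneg hc3.le hW3) hp4.le)
  have t106 := (mul_nonneg (mul_nonneg (mul_nonneg hN13 hp0.le) hp5.le) hp6.le)
  have t107 := (mul_nonneg (mul_nonneg hc2.le hN34) hp4.le)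
  have t108 := (mul_nonneg (mul_nonneg hc5.le hN35) hp1.le)
  have t109 := (mul_nonneg (mul_nonneg hW1.le hN24) hp6.le)
  have t110 := (mul_pos (mul_pos (mul_pos (mul_pos hp0 hp0) hp2) hp3) hp6)
  have t111 := (mul_pos (mul_pos (mul_pos hc4 hp1) hp5) hp5)
  have t112 := (mul_pos (mul_pos (mul_pos hc4 hp5) hp6) hp6)
  have t113 := (mul_nonneg (mul_nonneg hc6.le hN25) hp2.le)
  have t114 := (mul_nonneg (mul_nonneg hc1.le hN24) hp5.le)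
  have t115 := (mul_pos (mul_pos (mul_pos hc6 hp3) hp3) hp5)
  have t116 := (mul_nonneg (mul_nonneg hc2.le hN23) hp0.le)
  have t117 := (mul_nonneg (mul_nonneg (mul_nonneg hW3 hp0.le) hp2.le) hp2.le)
  have t118 := (mul_nonneg (mul_nonneg (mul_nonneg hN44 hp0.le) hp0.le) hp5.le)
  have t119 := (mul_nonneg (mul_nonneg (mul_nonneg hW3 hp0.le) hp0.le) hp0.le)
  have t120 := (mul_nonneg (mul_nonneg hc5.le hN25) hp0.le)
  have t121 := (mul_nonneg (mul_nonneg (mul_nonneg hW5 hp0.le) hp0.le) hp4.le)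
  have t122 := (congrArg (fun z => z * (p0 * p0 * p2)) hW)
  have t123 := (mul_nonneg (mul_nonneg hc6.le hN23) hp6.le)
  have t124 := (mul_nonneg (mul_nonneg (mul_nonneg hW5 hp0.le) hp3.le) hp5.le)
  have t125 := (mul_nonneg (mul_nonneg hN12 hN35) hp0.le)
  have t126 := (mul_pos (mul_pos hW1 hW1) hp5)
  have t127 := (mul_nonneg (mul_nonneg hc3.le hN15) hp5.le)
  have t128 := (mul_nonneg (mul_nonneg hc2.le hN11) hp1.le)
  have t129 := (congrArg (fun z => z * (p4 * p3 * p3)) hW)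
  have t130 := (mul_pos (mul_pos (mul_pos (mul_pos hp1 hp1) hp1) hp1) hp1)
  have t131 := (mul_pos (mul_pos (mul_pos (mul_pos hp0 hp0) hp1) hp2) hp6)
  have t132 := (congrArg (fun z => z * (p2 * p1 * p1)) hW)
  have t133 := (mul_nonneg (mul_nonneg hW3 hN33) hp2.le)
  have t134 := (mul_pos (mul_pos (mul_pos hc3 hp1) hp6) hp6)
  have t135 := (mul_nonneg (mul_nonneg (mul_nonneg hN24 hp0.le) hp0.le) hp5.le)
  have t136 := (congrArg (fun z => z * (p2 * p3 * p3)) hW)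
  have t137 := (congrArg (fun z => z * (p6 * p3 * p3)) hW)
  have t138 := (mul_nonneg (mul_nonneg hc1.le hN23) hp4.le)
  have t139 := (mul_nonneg (mul_nonneg hN13 hN55) hp1.le)
  have t140 := (mul_nonneg (mul_nonneg hc2.le hW5) hp6.le)
  have t141 := (mul_pos (mul_pos (mul_pos (mul_pos hp0 hp0) hp0) hp5) hp6)
  have t142 := (mul_pos (mul_pos (mul_pos (mul_pos hp0 hp0) hp0) hp1) hp4)
  have t143 := (congrArg (fun z => z * (p0 * p1 * p1)) hW)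
  have t144 := (mul_pos (mul_pos (mul_pos hc2 hp1) hp6) hp6)
  have t145 := (mul_nonneg (mul_nonneg hc4.le hN35) hp1.le)
  have t146 := (mul_pos (mul_pos (mul_pos (mul_pos hp0 hp2) hp5) hp5) hp5)
  have t147 := (mul_pos (mul_pos (mul_pos (mul_pos hp0 hp3) hp6) hp6) hp6)
  have t148 := (congrArg (fun z => z * (p0 * p2 * p6)) hW)
  have t149 := (mul_nonneg (mul_nonneg hW1.le hW2) hp1.le)
  have t150 := (mul_nonneg (mul_nonneg hc5.le hN11) hp3.le)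
  have t151 := (mul_nonneg (mul_nonneg hc2.le hN35) hp5.le)
  have t152 := (mul_nonneg (mul_nonneg hW2 hW5) hp1.le)
  have t153 := (mul_nonneg (mul_nonneg hc6.le hN22) hp1.le)
  have t154 := (congrArg (fun z => z * (p4 * p3 * p5)) hW)
  have t155 := (mul_nonneg (mul_nonneg hc1.le hN23) hp6.le)
  have t156 := (mul_pos (mul_pos (mul_pos hc4 hp3) hp4) hp6)
  have t157 := (congrArg (fun z => z * (p2 * p1 * p5)) hW)
  have t158 := (mul_nonneg (mul_nonneg hc5.le hN34) hp0.le)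
  have t159 := (mul_nonneg (mul_nonneg (mul_nonneg hN35 hp0.le) hp1.le) hp6.le)
  have t160 := (mul_nonneg (mul_nonneg (mul_nonneg hW2 hp1.le) hp5.le) hp6.le)
  have t161 := (mul_nonneg (mul_nonneg (mul_nonneg hW5 hp0.le) hp1.le) hp3.le)
  have t162 := (mul_nonneg (mul_nonneg hc3.le hW5) hp6.le)
  have t163 := (congrArg (fun z => z * (p0 * p2 * p4)) hW)
  have t164 := (mul_nonneg (mul_nonneg hN25 hN55) hp6.le)
  have t165 := (mul_nonneg (mul_nonneg (mul_nonneg hW5 hp1.le) hp1.le) hp2.le)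
  have t166 := (mul_pos (mul_pos (mul_pos hc4 hp2) hp2) hp3)
  have t167 := (mul_nonneg (mul_nonneg hW3 hN11) hp0.le)
  have t168 := (mul_nonneg (mul_nonneg (mul_nonneg hW2 hp0.le) hp2.le) hp2.le)
  have t169 := (mul_pos (mul_pos (mul_pos hc4 hp0) hp2) hp3)
  have t170 := (mul_nonneg (mul_nonneg hW2 hN33) hp2.le)
  have t171 := (mul_pos (mul_pos (mul_pos hc5 hp0) hp1) hp4)
  have t172 := (mul_nonneg (mul_nonneg (mul_nonneg hN33 hp0.le) hp1.le) hp6.le)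
  have t173 := (mul_nonneg (mul_nonneg (mul_nonneg hW2 hp0.le) hp0.le) hp0.le)
  have t174 := (congrArg (fun z => z * (p6 * p3 * p5)) hW)
  have t175 := (mul_nonneg (mul_nonneg hc4.le hN14) hp6.le)
  have t176 := (mul_nonneg (mul_nonneg hc4.le hN35) hp3.le)
  have t177 := (mul_nonneg (mul_nonneg hW1.le hN13) hp0.le)
  have t178 := (mul_nonneg (mul_nonneg hc2.le hN14) hp4.le)
  have t179 := (mul_pos (mul_pos (mul_pos (mul_pos hp0 hp0) hp0) hp0) hp3)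
  have t180 := (mul_nonneg (mul_nonneg hc3.le hN14) hp6.le)
  have t181 := (mul_nonneg (mul_nonneg hc3.le hN45) hp4.le)
  have t182 := (mul_pos (mul_pos hW1 hW1) hp3)
  have t183 := (mul_nonneg (mul_nonneg (mul_nonneg hW5 hp2.le) hp6.le) hp6.le)
  have t184 := (mul_pos (mul_pos (mul_pos hc4 hp3) hp4) hp4)
  have t185 := (mul_nonneg (mul_nonneg (mul_nonneg hW3 hp0.le) hp6.le) hp6.le)
  have t186 := (mul_nonneg (mul_nonneg hc6.le hW5) hp6.le)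
  have t187 := (mul_nonneg (mul_nonneg (mul_nonneg hN55 hp0.le) hp5.le) hp6.le)
  have t188 := (congrArg (fun z => z * (p2 * p1 * p3)) hW)
  have t189 := (mul_nonneg (mul_nonneg (mul_nonneg hW3 hp0.le) hp4.le) hp4.le)
  have t190 := (mul_pos (mul_pos (mul_pos (mul_pos hp0 hp0) hp1) hp6) hp6)
  have t191 := (congrArg (fun z => z * (p2 * p2 * p4)) hW)
  have t192 := (mul_pos (mul_pos (mul_pos hW1 hp0) hp0) hp0)
  have t193 := (mul_pos (mul_pos (mul_pos hc4 hp0) hp0) hp1)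
  have t194 := (mul_pos (mul_pos (mul_pos (mul_pos hp0 hp0) hp0) hp1) hp6)
  have t195 := (mul_nonneg (mul_nonneg (mul_nonneg hN24 hp0.le) hp1.le) hp6.le)
  have t196 := (mul_pos (mul_pos (mul_pos hc2 hp0) hp3) hp6)
  have t197 := (mul_pos (mul_pos hc6 hW1) hp2)
  have t198 := (mul_pos (mul_pos (mul_pos hc4 hp3) hp6) hp6)
  have t199 := (mul_nonneg (mul_nonneg (mul_nonneg hW3 hp6.le) hp6.le) hp6.le)
  have t200 := (mul_nonneg (mul_nonneg (mul_nonneg hW2 hp0.le) hp0.le) hp2.le)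
  have t201 := (mul_nonneg (mul_nonneg hc6.le hN14) hp2.le)
  have t202 := (congrArg (fun z => z * (p6 * p1 * p5)) hW)
  have t203 := (congrArg (fun z => z * (p2 * p3 * p5)) hW)
  have t204 := (congrArg (fun z => z * (p0 * p3 * p5)) hW)
  have t205 := (mul_pos (mul_pos (mul_pos (mul_pos hp0 hp0) hp1) hp4) hp4)
  have t206 := (mul_nonneg (mul_nonneg hW2 hN35) hp2.le)
  have t207 := (congrArg (fun z => z * (p4 * p1 * p1)) hW)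
  have t208 := (congrArg (fun z => z * (p0 * p5 * p5)) hW)
  have t209 := (mul_nonneg (mul_nonneg hc2.le hN13) hp5.le)
  have t210 := (mul_nonneg (mul_nonneg (mul_nonneg hW5 hp0.le) hp0.le) hp2.le)
  have t211 := (congrArg (fun z => z * (p4 * p1 * p3)) hW)
  have t212 := (mul_nonneg (mul_nonneg (mul_nonneg hW3 hp0.le) hp0.le) hp6.le)
  have t213 := (mul_pos (mul_pos (mul_pos (mul_pos hp0 hp0) hp0) hp3) hp6)
  have t214 := (mul_nonneg (mul_nonneg hc2.le hN15) hp5.le)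
  have t215 := (mul_nonneg (mul_nonneg hc6.le hN25) hp6.le)
  have t216 := (mul_pos (mul_pos hW1 hW1) hp1)
  have t217 := (mul_nonneg (mul_nonneg hc2.le hN44) hp3.le)
  have t218 := (mul_pos (mul_pos (mul_pos (mul_pos hp0 hp0) hp0) hp2) hp5)
  have t219 := (mul_nonneg (mul_nonneg hN12 hN55) hp0.le)
  have t220 := (congrArg (fun z => z * (p2 * p2 * p2)) hW)
  have t221 := (mul_pos (mul_pos (mul_pos (mul_pos hp0 hp0) hp0) hp0) hp5)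
  have t222 := (mul_nonneg (mul_nonneg (mul_nonneg hN25 hp0.le) hp1.le) hp1.le)
  have t223 := (mul_nonneg (mul_nonneg hc6.le hN15) hp5.le)
  have t224 := (mul_nonneg (mul_nonneg hW3 hN55) hp2.le)
  simp only [zero_mul] at t9 t12 t17 t19 t24 t26 t29 t30 t32 t33 t41 t47 t57 t62 t79 t82 t91 t94 t99 t102 t103 t122 t129 t132 t136 t137 t143 t148 t154 t157 t163 t174 t188 t191 t202 t203 t204 t207 t208 t211 t220
  linarith

/-- Ratios: `x/y ≤ z/w` and `z/w ≤ w/v` imply `x/y ≤ w/v`. -/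
private theorem six_tr {x y z w v : ℝ} (hw : 0 < w) (h1 : 0 ≤ y * z - x * w) (h2 : 0 ≤ w * w - z * v)
    (hy : 0 ≤ y) (hv : 0 ≤ v) : 0 ≤ y * w - x * v := by
  have h3 := mul_nonneg h1 hv
  have h4 := mul_nonneg h2 hy
  have h5 : 0 ≤ w * (y * w - x * v) := by linarith
  exact nonneg_of_mul_nonneg_right h5 hw

/-- The algebra for `n = 6`: `p j = E_j / binom(6, j)`, `E_j` the elementary symmetric functions; `c m`, `W m` are the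
coefficients of `P` and of the velocity, up to positive constants. -/
theorem six_alg (p0 p1 p2 p3 p4 p5 p6 : ℝ) (hp0 : 0 < p0) (hp1 : 0 < p1) (hp2 : 0 < p2) (hp3 : 0 < p3) (hp4 : 0 < p4) (hp5 : 0 < p5) (hp6 : 0 < p6)
    (hn1 : p0 * p2 ≤ p1 ^ 2)
    (hn2 : p1 * p3 ≤ p2 ^ 2)
    (hn3 : p2 * p4 ≤ p3 ^ 2)
    (hn4 : p3 * p5 ≤ p4 ^ 2)
    (hn5 : p4 * p6 ≤ p5 ^ 2)
    (hc1 : 0 < -1 * p0 ^ 2 + 20 * p0 * p2 - 10 * p0 * p4 - 24 * p1 ^ 2 + 80 * p1 * p3 - 75 * p2 ^ 2 + 10 * p2 * p6 - 80 * p3 * p5 + 75 * p4 ^ 2 - 20 * p4 * p6 + 24 * p5 ^ 2 + p6 ^ 2)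
    (hc2 : 0 < 11 * p0 ^ 2 - 130 * p0 * p2 + 10 * p0 * p4 + 2 * p0 * p6 + 156 * p1 ^ 2 - 80 * p1 * p3 - 72 * p1 * p5 + 75 * p2 ^ 2 + 450 * p2 * p4 + 10 * p2 * p6 - 400 * p3 ^ 2 - 80 * p3 * p5 + 75 * p4 ^ 2 - 130 * p4 * p6 + 156 * p5 ^ 2 + 11 * p6 ^ 2)
    (hc3 : 0 < -11 * p0 ^ 2 + 60 * p0 * p2 + 18 * p0 * p4 - 72 * p1 ^ 2 - 144 * p1 * p3 + 135 * p2 ^ 2 - 18 * p2 * p6 + 144 * p3 * p5 - 135 * p4 ^ 2 - 60 * p4 * p6 + 72 * p5 ^ 2 + 11 * p6 ^ 2)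
    (hc4 : 0 < 33 * p0 ^ 2 - 30 * p0 * p2 - 34 * p0 * p4 - 2 * p0 * p6 + 36 * p1 ^ 2 + 272 * p1 * p3 + 72 * p1 * p5 - 255 * p2 ^ 2 - 450 * p2 * p4 - 34 * p2 * p6 + 400 * p3 ^ 2 + 272 * p3 * p5 - 255 * p4 ^ 2 - 30 * p4 * p6 + 36 * p5 ^ 2 + 33 * p6 ^ 2)
    (hc5 : 0 < -33 * p0 ^ 2 - 60 * p0 * p2 - 10 * p0 * p4 + 72 * p1 ^ 2 + 80 * p1 * p3 - 75 * p2 ^ 2 + 10 * p2 * p6 - 80 * p3 * p5 + 75 * p4 ^ 2 + 60 * p4 * p6 - 72 * p5 ^ 2 + 33 * p6 ^ 2)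
    (hc6 : 0 < 231 * p0 ^ 2 + 630 * p0 * p2 + 210 * p0 * p4 + 10 * p0 * p6 - 756 * p1 ^ 2 - 1680 * p1 * p3 - 360 * p1 * p5 + 1575 * p2 ^ 2 + 2250 * p2 * p4 + 210 * p2 * p6 - 2000 * p3 ^ 2 - 1680 * p3 * p5 + 1575 * p4 ^ 2 + 630 * p4 * p6 - 756 * p5 ^ 2 + 231 * p6 ^ 2)
    (hW0 : 0 < p0 * p1 - 10 * p0 * p3 + 5 * p0 * p5 + 15 * p1 * p2 - 45 * p1 * p4 + 5 * p1 * p6 + 50 * p2 * p3 - 45 * p2 * p5 + 50 * p3 * p4 - 10 * p3 * p6 + 15 * p4 * p5 + p5 * p6)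
    (hW1 : 0 < -1 * p0 * p1 + 6 * p0 * p3 - p0 * p5 - 9 * p1 * p2 + 9 * p1 * p4 + p1 * p6 - 10 * p2 * p3 - 9 * p2 * p5 + 10 * p3 * p4 - 6 * p3 * p6 + 9 * p4 * p5 + p5 * p6)
    (hW2 : 0 ≤ 9 * p0 * p1 - 26 * p0 * p3 - 3 * p0 * p5 + 39 * p1 * p2 + 27 * p1 * p4 - 3 * p1 * p6 - 30 * p2 * p3 + 27 * p2 * p5 - 30 * p3 * p4 - 26 * p3 * p6 + 39 * p4 * p5 + 9 * p5 * p6)
    (hW3 : 0 ≤ -3 * p0 * p1 + 2 * p0 * p3 + p0 * p5 - 3 * p1 * p2 - 9 * p1 * p4 - p1 * p6 + 10 * p2 * p3 + 9 * p2 * p5 - 10 * p3 * p4 - 2 * p3 * p6 + 3 * p4 * p5 + 3 * p5 * p6)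
    (hW4 : 0 ≤ 21 * p0 * p1 + 14 * p0 * p3 + p0 * p5 - 21 * p1 * p2 - 9 * p1 * p4 + p1 * p6 + 10 * p2 * p3 - 9 * p2 * p5 + 10 * p3 * p4 + 14 * p3 * p6 - 21 * p4 * p5 + 21 * p5 * p6)
    (hW5 : 0 ≤ -63 * p0 * p1 - 70 * p0 * p3 - 15 * p0 * p5 + 105 * p1 * p2 + 135 * p1 * p4 + 15 * p1 * p6 - 150 * p2 * p3 - 135 * p2 * p5 + 150 * p3 * p4 + 70 * p3 * p6 - 105 * p4 * p5 + 63 * p5 * p6) :
    0 < 9 * p0 * p1 - 26 * p0 * p3 - 3 * p0 * p5 + 39 * p1 * p2 + 27 * p1 * p4 - 3 * p1 * p6 - 30 * p2 * p3 + 27 * p2 * p5 - 30 * p3 * p4 - 26 * p3 * p6 + 39 * p4 * p5 + 9 * p5 * p6 ∧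
    0 < -3 * p0 * p1 + 2 * p0 * p3 + p0 * p5 - 3 * p1 * p2 - 9 * p1 * p4 - p1 * p6 + 10 * p2 * p3 + 9 * p2 * p5 - 10 * p3 * p4 - 2 * p3 * p6 + 3 * p4 * p5 + 3 * p5 * p6 ∧
    0 < 21 * p0 * p1 + 14 * p0 * p3 + p0 * p5 - 21 * p1 * p2 - 9 * p1 * p4 + p1 * p6 + 10 * p2 * p3 - 9 * p2 * p5 + 10 * p3 * p4 + 14 * p3 * p6 - 21 * p4 * p5 + 21 * p5 * p6 := by
  have hN11 : 0 ≤ p1 * p1 - p0 * p2 := by linarith
  have hN22 : 0 ≤ p2 * p2 - p1 * p3 := by linarith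
  have hN33 : 0 ≤ p3 * p3 - p2 * p4 := by linarith
  have hN44 : 0 ≤ p4 * p4 - p3 * p5 := by linarith
  have hN55 : 0 ≤ p5 * p5 - p4 * p6 := by linarith
  have hN12 : 0 ≤ p1 * p2 - p0 * p3 := six_tr hp2 hN11 hN22 hp1.le hp3.le
  have hN23 : 0 ≤ p2 * p3 - p1 * p4 := six_tr hp3 hN22 hN33 hp2.le hp4.le
  have hN34 : 0 ≤ p3 * p4 - p2 * p5 := six_tr hp4 hN33 hN44 hp3.le hp5.le
  have hN45 : 0 ≤ p4 * p5 - p3 * p6 := six_tr hp5 hN44 hN55 hp4.le hp6.le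
  have hN13 : 0 ≤ p1 * p3 - p0 * p4 := six_tr hp3 hN12 hN33 hp1.le hp4.le
  have hN24 : 0 ≤ p2 * p4 - p1 * p5 := six_tr hp4 hN23 hN44 hp2.le hp5.le
  have hN35 : 0 ≤ p3 * p5 - p2 * p6 := six_tr hp5 hN34 hN55 hp3.le hp6.le
  have hN14 : 0 ≤ p1 * p4 - p0 * p5 := six_tr hp4 hN13 hN44 hp1.le hp5.le
  have hN25 : 0 ≤ p2 * p5 - p1 * p6 := six_tr hp5 hN24 hN55 hp2.le hp6.le
  have hN15 : 0 ≤ p1 * p5 - p0 * p6 := six_tr hp5 hN14 hN55 hp1.le hp6.le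
  refine ⟨lt_of_le_of_ne hW2 fun h => ?_, lt_of_le_of_ne hW3 fun h => ?_, lt_of_le_of_ne hW4 fun h => ?_⟩
  · exact six_two p0 p1 p2 p3 p4 p5 p6 hp0 hp1 hp2 hp3 hp4 hp5 hp6 hc1 hc2 hc3 hc4 hc5 hW0 hW1 hW3 hW4 hW5 hN11 hN12 hN13 hN14 hN15 hN22 hN23 hN24 hN25 hN33 hN35 hN44 hN45 hN55 h.symm
  · exact six_three p0 p1 p2 p3 p4 p5 p6 hp0 hp1 hp2 hp3 hp4 hp5 hp6 hc1 hc2 hc3 hc5 hc6 hW0 hW1 hW2 hW4 hW5 hN11 hN12 hN13 hN14 hN15 hN22 hN23 hN24 hN25 hN34 hN35 hN44 hN45 hN55 h.symm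
  · exact six_four p0 p1 p2 p3 p4 p5 p6 hp0 hp1 hp2 hp3 hp4 hp5 hp6 hc1 hc2 hc3 hc4 hc5 hc6 hW1 hW2 hW3 hW5 hN11 hN12 hN13 hN14 hN15 hN22 hN23 hN24 hN25 hN33 hN34 hN35 hN44 hN45 hN55 h.symm

end Pool.Agent.Lib.MP_fe2d2a_anEV6
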