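import Mathlib

set_option autoImplicit false

namespace Pool.Agent.Lib.MP_fe2d2a_anEV6


private theorem w5_1a (a b c d e : ℝ) (ha : 0 ≤ a) (hmb : 0 ≤ (-b)) (hE0 : 0 < (1 - c + d - e)) (hE1 : 0 < (1 + 3*a - 2*b)) (hE2 : 0 < (3 + 15*c - 5*d - e)) (hE3 : 0 < (1 - 5*a)) (hE4 : 0 < (3 - 15*c - 5*d + e)) (hE5 : 0 < (1 + 3*a + 2*b)) (hE6 : 0 < (1 + c + d + e)) (hW1 : 0 ≤ (a*e - c)) (hW3 : 0 ≤ (a*e + c + b)) (hn1405 : 0 ≤ ((1 + 3*a - 2*b)*(3 - 15*c - 5*d + e) - 15*((1 - c + d - e)*(1 + 3*a + 2*b)))) (hn2314 : 0 ≤ (3*((3 + 15*c - 5*d - e)*(1 - 5*a)) - 5*((1 + 3*a - 2*b)*(3 - 15*c - 5*d + e)))) (hn3425 : 0 ≤ (3*((1 - 5*a)*(3 - 15*c - 5*d + e)) - 5*((3 + 15*c - 5*d - e)*(1 + 3*a + 2*b)))) (hn2516 : 0 ≤ ((3 + 15*c - 5*d - e)*(1 + 3*a + 2*b) - 15*((1 + 3*a - 2*b)*(1 + c + d + e)))) : False := by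
  have p0 := ha
  have p1 := mul_pos (mul_pos (hE3) (hE3)) (hE6)
  have p2 := hn3425
  have p3 := mul_nonneg (hmb) (hW1)
  have p4 := mul_pos (mul_pos (hE1) (hE3)) (hE6)
  have p5 := mul_pos (mul_pos (hE3) (hE3)) (hE4)
  have p6 := mul_pos (mul_pos (hE0) (hE3)) (hE3)
  have p7 := mul_pos (mul_pos (hE1) (hE3)) (hE4)
  have p8 := mul_pos (mul_pos (hE0) (hE3)) (hE5)
  have p9 := hn2314
  have p10 := mul_pos (mul_pos (hE2) (hE3)) (hE5)
  have p11 := mul_pos (mul_pos (hE2) (hE3)) (hE3)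
  have p12 := hn2516
  have p13 := hW3
  have p14 := hn1405
  have p15 := mul_nonneg (hmb) (hE6.le)
  have p16 := mul_nonneg (hmb) (hE4.le)
  have p17 := mul_pos (mul_pos (hE3) (hE5)) (hE6)
  have p18 := mul_pos (mul_pos (hE0) (hE2)) (hE3)
  have p19 := mul_pos (mul_pos (hE0) (hE3)) (hE4)
  have p20 := mul_nonneg (ha) (hE2.le)
  have p21 := mul_pos (mul_pos (hE0) (hE3)) (hE6)
  have p22 := mul_pos (mul_pos (hE0) (hE0)) (hE3)
  have p23 := mul_nonneg (mul_nonneg (ha) (hE1.le)) (hE2.le)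
  have h : (0:ℝ) < 0 := by
    linear_combination 1582080 * p0 + 26550 * p1 + 4224 * p2 + 537600 * p3 + 34725 * p4 + 1008 * p5 + 15120 * p6 + 1680 * p7 + 25200 * p8 + 2496 * p9 + 1600 * p10 + 912 * p11 + 5120 * p12 + 192000 * p13 + 3120 * p14 + 180000 * p15 + 10560 * p16 + 9525 * p17 + 780 * p18 + 780 * p19 + 4480 * p20 + 3900 * p21 + 3900 * p22 + 400 * p23
  exact lt_irrefl _ h

private theorem w5_1b (a b c d e : ℝ) (hma : 0 < (-a)) (hmb : 0 ≤ (-b)) (hme : 0 ≤ (-e)) (hE0 : 0 < (1 - c + d - e)) (hE1 : 0 < (1 + 3*a - 2*b)) (hE2 : 0 < (3 + 15*c - 5*d - e)) (hE3 : 0 < (1 - 5*a)) (hE4 : 0 < (3 - 15*c - 5*d + e)) (hE5 : 0 < (1 + 3*a + 2*b)) (hE6 : 0 < (1 + c + d + e)) (hW0 : 0 ≤ (a*d - b*c)) (hW1 : 0 ≤ (a*e - c)) (hW2 : 0 ≤ (6*a + b*e - d)) (hW3 : 0 ≤ (a*e + c + b)) (hW4 : 0 ≤ (5*(a*d + b*c) + 3*(b*e + d) + 2)) (hNW5 : 0 ≤ (-(3*a*c + 2*b*d + e))) (hp43 : 0 < ((2*c + d*e)*(1 - 2*a) - (2*c*e + 4*d + e^2)*b)) (hp53 : 0 ≤ ((2*c + d*e)*(-(b + a*b)) - (c*d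 + d*e + 2*e)*b)) (hp56 : 0 ≤ ((c^2 + d^2 + e^2 + 2)*(-(b + a*b)) - (c*d + d*e + 2*e)*(-(a^2 + b^2 + 1)))) : False := by
  have p0 := mul_pos (hma) (hp43)
  have p1 := mul_nonneg (hme) (hW2)
  have p2 := mul_pos (hE5) (hp43)
  have p3 := mul_pos (hE1) (hp43)
  have p4 := mul_nonneg (mul_nonneg (hmb) (hme)) (hE6.le)
  have p5 := mul_nonneg (mul_nonneg (hmb) (hE4.le)) (hW0)
  have p6 := mul_nonneg (mul_nonneg (hmb) (hE2.le)) (hW0)
  have p7 := mul_nonneg (mul_nonneg (hmb) (hE0.le)) (hE4.le)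
  have p8 := mul_nonneg (mul_nonneg (hmb) (hme)) (hNW5)
  have p9 := mul_nonneg (hE0.le) (hW1)
  have p10 := hp56
  have p11 := mul_nonneg (hme) (hW4)
  have p12 := mul_nonneg (mul_nonneg (hme) (hE0.le)) (hE5.le)
  have p13 := mul_nonneg (hE3.le) (hW1)
  have p14 := mul_nonneg (hE0.le) (hW3)
  have p15 := mul_nonneg (mul_nonneg (hma.le) (hmb)) (hE6.le)
  have p16 := mul_nonneg (hE6.le) (hW1)
  have p17 := mul_nonneg (mul_nonneg (hmb) (hE4.le)) (hE6.le)
  have p18 := mul_nonneg (mul_nonneg (hmb) (hE0.le)) (hE2.le)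
  have p19 := mul_nonneg (mul_nonneg (hmb) (hE2.le)) (hW1)
  have p20 := hp53
  have p21 := mul_nonneg (mul_nonneg (hmb) (hmb)) (hE4.le)
  have p22 := mul_nonneg (mul_nonneg (hE1.le) (hE4.le)) (hW3)
  have p23 := mul_nonneg (mul_nonneg (hE2.le) (hE5.le)) (hW3)
  have p24 := mul_nonneg (mul_nonneg (hmb) (hmb)) (hme)
  have p25 := mul_nonneg (hE6.le) (hW3)
  have p26 := mul_nonneg (mul_nonneg (hmb) (hme)) (hW1)
  have p27 := mul_nonneg (mul_nonneg (hmb) (hmb)) (hE0.le)
  have p28 := mul_nonneg (mul_nonneg (hmb) (hE4.le)) (hW1)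
  have p29 := mul_nonneg (mul_nonneg (hma.le) (hE6.le)) (hW1)
  have p30 := mul_nonneg (hW2) (hNW5)
  have p31 := mul_nonneg (hE1.le) (hW3)
  have p32 := mul_nonneg (hme) (hE6.le)
  have p33 := mul_nonneg (mul_nonneg (hma.le) (hE0.le)) (hW1)
  have p34 := mul_nonneg (mul_nonneg (hE1.le) (hE6.le)) (hNW5)
  have p35 := mul_nonneg (mul_nonneg (hE0.le) (hE5.le)) (hNW5)
  have p36 := mul_nonneg (mul_nonneg (hmb) (hE5.le)) (hE6.le)
  have p37 := hW1
  have p38 := mul_nonneg (mul_nonneg (hmb) (hE2.le)) (hNW5)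
  have p39 := mul_nonneg (mul_nonneg (hma.le) (hmb)) (hE0.le)
  have p40 := hW3
  have p41 := mul_nonneg (mul_nonneg (hmb) (hE6.le)) (hW3)
  have p42 := mul_nonneg (mul_nonneg (hE0.le) (hE3.le)) (hW3)
  have p43 := mul_nonneg (mul_nonneg (hE3.le) (hE6.le)) (hW3)
  have p44 := mul_nonneg (mul_nonneg (hE5.le) (hE6.le)) (hW1)
  have p45 := mul_nonneg (mul_nonneg (hmb) (hE6.le)) (hNW5)
  have p46 := mul_nonneg (hmb) (hW4)
  have h : (0:ℝ) < 0 := by
    linear_combination 18124583490 * p0 + 6728898174 * p1 + 2449395495 * p2 + 2449395495 * p3 + 24369343344 * p4 + 1443420720 * p5 + 1443420720 * p6 + 1067176644 * p7 + 6166594896 * p8 + 17650403394 * p9 + 8660524320 * p10 + 3247849164 * p11 + 4931534916 * p12 + 2909774124 * p13 + 13944946686 * p14 + 13473652020 * p15 + 9957611235 * p16 + 474052326 * p17 + 463514358 * p18 + 579232790 * p19 + 4072682760 * p20 + 509085345 * p21 + 162301662 * p22 + 162301662 * p23 + 6613265208 * p24 + 6547644312 * p25 + 6470712104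 * p26 + 6025620933 * p27 + 390823876 * p28 + 5276902815 * p29 + 280684320 * p30 + 1651429188 * p31 + 4931534916 * p32 + 4390433460 * p33 + 481140240 * p34 + 481140240 * p35 + 1440719226 * p36 + 3954983028 * p37 + 48114024 * p38 + 2160865398 * p39 + 1479443712 * p40 + 1368580140 * p41 + 186702858 * p42 + 186702858 * p43 + 295489785 * p44 + 240570120 * p45 + 97340868 * p46
  exact lt_irrefl _ h

private theorem w5_2a (a b c d e : ℝ) (ha : 0 ≤ a) (hb : 0 < b) (hE0 : 0 < (1 - c + d - e)) (hE1 : 0 < (1 + 3*a - 2*b)) (hE2 : 0 < (3 + 15*c - 5*d - e)) (hE3 : 0 < (1 - 5*a)) (hE4 : 0 < (3 - 15*c - 5*d + e)) (hE5 : 0 < (1 + 3*a + 2*b)) (hE6 : 0 < (1 + c + d + e)) (hW1 : 0 ≤ (a*e - c)) (hW3 : 0 ≤ (a*e + c + b)) (hNW5 : 0 ≤ (-(3*a*c + 2*b*d + e))) (hp45 : 0 ≤ ((c*d + d*e + 2*e)*(1 - 2*a) - (2*c*e + 4*d + e^2)*(-(b + a*b)))) (hn1203 : 0 ≤ ((1 + 3*a - 2*b)*(3 + 15*c - 5*d - e) - 9*((1 - c + d - e)*(1 - 5*a)))) (hn1405 : 0 ≤ ((1 + 3*a - 2*b)*(3 - 15*c - 5*d + e)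 - 15*((1 - c + d - e)*(1 + 3*a + 2*b)))) (hn2314 : 0 ≤ (3*((3 + 15*c - 5*d - e)*(1 - 5*a)) - 5*((1 + 3*a - 2*b)*(3 - 15*c - 5*d + e)))) (hn3425 : 0 ≤ (3*((1 - 5*a)*(3 - 15*c - 5*d + e)) - 5*((3 + 15*c - 5*d - e)*(1 + 3*a + 2*b)))) : False := by
  have p0 := mul_pos (mul_pos (hb) (hE0)) (hE1)
  have p1 := mul_nonneg (ha) (hE2.le)
  have p2 := mul_pos (mul_pos (hE0) (hE1)) (hE1)
  have p3 := mul_pos (mul_pos (hb) (hE0)) (hE3)
  have p4 := hp45
  have p5 := hNW5
  have p6 := mul_pos (mul_pos (hb) (hb)) (hE0)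
  have p7 := hn1405
  have p8 := mul_pos (mul_pos (hb) (hE0)) (hE6)
  have p9 := hn2314
  have p10 := mul_nonneg (mul_nonneg (ha) (hE4.le)) (hE4.le)
  have p11 := mul_nonneg (mul_nonneg (ha) (hE2.le)) (hE5.le)
  have p12 := mul_pos (mul_pos (hE0) (hE1)) (hE3)
  have p13 := mul_pos (mul_pos (hb) (hE1)) (hE2)
  have p14 := mul_pos (mul_pos (hE0) (hE0)) (hE3)
  have p15 := mul_nonneg (hE6.le) (hn1405)
  have p16 := mul_nonneg (mul_nonneg (ha) (hE6.le)) (hE6.le)
  have p17 := mul_nonneg (mul_nonneg (hE1.le) (hE2.le)) (hW1)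
  have p18 := mul_nonneg (hE6.le) (hNW5)
  have p19 := mul_nonneg (hE5.le) (hNW5)
  have p20 := mul_pos (mul_pos (hb) (hE1)) (hE4)
  have p21 := mul_pos (mul_pos (hE1) (hE1)) (hE6)
  have p22 := mul_nonneg (mul_nonneg (ha) (hE3.le)) (hE6.le)
  have p23 := mul_pos (mul_pos (hE0) (hE1)) (hE6)
  have p24 := mul_nonneg (hW3) (hNW5)
  have p25 := hn3425
  have p26 := mul_nonneg (hE5.le) (hn1405)
  have p27 := mul_nonneg (hE1.le) (hn3425)
  have p28 := mul_pos (mul_pos (hE0) (hE0)) (hE1)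
  have p29 := mul_nonneg (hW1) (hNW5)
  have p30 := mul_pos (mul_pos (hE0) (hE2)) (hE3)
  have p31 := mul_nonneg (mul_nonneg (hb.le) (hE0.le)) (hW3)
  have p32 := ha
  have p33 := mul_nonneg (hE2.le) (hn2314)
  have p34 := mul_pos (mul_pos (hb) (hE2)) (hE2)
  have p35 := mul_nonneg (ha) (hE3.le)
  have p36 := mul_nonneg (mul_nonneg (hE1.le) (hE6.le)) (hW1)
  have p37 := mul_pos (mul_pos (hE1) (hE2)) (hE6)
  have p38 := mul_pos (mul_pos (hb) (hE0)) (hE2)
  have p39 := mul_nonneg (mul_nonneg (hE0.le) (hE5.le)) (hW1)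
  have p40 := mul_nonneg (mul_nonneg (hb.le) (hE0.le)) (hW1)
  have p41 := mul_nonneg (hE6.le) (hn3425)
  have p42 := mul_pos (mul_pos (hb) (hE1)) (hE6)
  have p43 := mul_nonneg (hE0.le) (hn3425)
  have p44 := mul_nonneg (hE0.le) (hn1405)
  have p45 := mul_nonneg (mul_nonneg (ha) (hE2.le)) (hE4.le)
  have p46 := mul_nonneg (mul_nonneg (ha) (hE2.le)) (hE6.le)
  have p47 := mul_nonneg (hE6.le) (hn1203)
  have h : (0:ℝ) < 0 := by
    linear_combination 220616972175 * p0 + 40731797376 * p1 + 33789061050 * p2 + 72849651165 * p3 + 88381440000 * p4 + 117292032000 * p5 + 298311767550 * p6 + 4647864960 * p7 + 135695483775 * p8 + 1717372800 * p9 + 977562936 * p10 + 4825123200 * p11 + 14216324310 * p12 + 4642675200 * p13 + 15016869225 * p14 + 1537891200 * p15 + 64578162600 * p16 + 2761920000 * p17 + 36303724800 * p18 + 12064665600 * p19 + 2296108800 * p20 + 6840720000 * p21 + 15851669760 * p22 + 12840497475 * p23 + 25216819200 * p24 + 499478400 * p25 + 394012800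 * p26 + 155854080 * p27 + 10329199125 * p28 + 18973900800 * p29 + 551572965 * p30 + 49911507000 * p31 + 45990733824 * p32 + 18529200 * p33 + 185292000 * p34 + 6391388160 * p35 + 8285760000 * p36 + 436330400 * p37 + 1033639755 * p38 + 5523840000 * p39 + 16374573000 * p40 + 76107600 * p41 + 4429036800 * p42 + 64077510 * p43 + 104339685 * p44 + 41303736 * p45 + 439400520 * p46 + 62701600 * p47
  exact lt_irrefl _ h

private theorem w5_3 (a b c d e : ℝ) (hma : 0 < (-a)) (hb : 0 < b) (hme : 0 ≤ (-e)) (hE0 : 0 < (1 - c + d - e)) (hE1 : 0 < (1 + 3*a - 2*b)) (hE2 : 0 < (3 + 15*c - 5*d - e)) (hE3 : 0 < (1 - 5*a)) (hE4 : 0 < (3 - 15*c - 5*d + e)) (hE5 : 0 < (1 + 3*a + 2*b)) (hE6 : 0 < (1 + c + d + e)) (hW0 : 0 ≤ (a*d - b*c)) (hW1 : 0 ≤ (a*e - c)) (hW2 : 0 ≤ (6*a + b*e - d)) (hW3 : 0 ≤ (a*e + c + b)) (hW4 : 0 ≤ (5*(a*d + b*c) + 3*(b*e + d) + 2)) (hc35 : 0 ≤ (c*d + d*e + 2*e + (1 + a)*(2*c + d*e))) (hp45 : 0 ≤ ((c*d + d*e + 2*e)*(1 - 2*a) - (2*c*e + 4*d + e^2)*(-(b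 + a*b)))) : False := by
  have p0 := mul_nonneg (hb.le) (hW2)
  have p1 := mul_pos (mul_pos (hma) (hb)) (hE4)
  have p2 := mul_pos (mul_pos (hma) (hb)) (hE2)
  have p3 := mul_pos (mul_pos (hma) (hb)) (hE6)
  have p4 := mul_pos (mul_pos (hma) (hb)) (hE0)
  have p5 := hp45
  have p6 := mul_nonneg (mul_nonneg (hb.le) (hb.le)) (hme)
  have p7 := hc35
  have p8 := mul_nonneg (hW1) (hW2)
  have p9 := mul_nonneg (hme) (hE6.le)
  have p10 := mul_nonneg (hme) (hE0.le)
  have p11 := mul_nonneg (hE6.le) (hW1)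
  have p12 := mul_nonneg (hme) (hW4)
  have p13 := mul_nonneg (mul_nonneg (hma.le) (hme)) (hW0)
  have p14 := mul_nonneg (hE0.le) (hW1)
  have p15 := mul_nonneg (hme) (hE3.le)
  have p16 := mul_nonneg (hma.le) (hW3)
  have p17 := hme
  have p18 := mul_nonneg (mul_nonneg (hE0.le) (hE3.le)) (hW1)
  have p19 := mul_nonneg (mul_nonneg (hma.le) (hE4.le)) (hW3)
  have p20 := mul_nonneg (mul_nonneg (hma.le) (hE2.le)) (hW3)
  have p21 := mul_nonneg (mul_nonneg (hma.le) (hE6.le)) (hW1)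
  have p22 := mul_nonneg (mul_nonneg (hb.le) (hme)) (hW1)
  have p23 := mul_nonneg (mul_nonneg (hb.le) (hme)) (hW3)
  have p24 := mul_nonneg (mul_nonneg (hme) (hE1.le)) (hW4)
  have p25 := mul_nonneg (mul_nonneg (hme) (hE5.le)) (hW4)
  have h : (0:ℝ) < 0 := by
    linear_combination 18000 * p0 + 5055 * p1 + 5055 * p2 + 35475 * p3 + 35475 * p4 + 4500 * p5 + 15720 * p6 + 6720 * p7 + 2220 * p8 + 6720 * p9 + 6720 * p10 + 6720 * p11 + 1340 * p12 + 6600 * p13 + 6060 * p14 + 1104 * p15 + 5280 * p16 + 4896 * p17 + 660 * p18 + 240 * p19 + 240 * p20 + 3300 * p21 + 3000 * p22 + 2280 * p23 + 80 * p24 + 80 * p25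
  exact lt_irrefl _ h

private theorem w5_4 (a b c e : ℝ) (hma : 0 < (-a)) (hb : 0 < b) (hc : 0 ≤ c) (he : 0 < e) (hE1 : 0 < (1 + 3*a - 2*b)) (hW1 : 0 ≤ (a*e - c)) : False := by
  have p0 := mul_pos (mul_pos (hma) (hma)) (he)
  have p1 := mul_pos (mul_pos (hma) (he)) (hE1)
  have p2 := mul_pos (mul_pos (hma) (hb)) (he)
  have p3 := hW1
  have p4 := hc
  have h : (0:ℝ) < 0 := by
    linear_combination 3 * p0 + 1 * p1 + 2 * p2 + 1 * p3 + 1 * p4
  exact lt_irrefl _ h

private theorem w5_5 (a b c d e : ℝ) (hma : 0 < (-a)) (hb : 0 < b) (hmc : 0 < (-c)) (hd : 0 ≤ d) (he : 0 < e) (hE0 : 0 < (1 - c + d - e)) (hE1 : 0 < (1 + 3*a - 2*b)) (hE2 : 0 < (3 + 15*c - 5*d - e)) (hE3 : 0 < (1 - 5*a)) (hE4 : 0 < (3 - 15*c - 5*d + e)) (hE5 : 0 < (1 + 3*a + 2*b)) (hE6 : 0 < (1 + c + d + e)) (hW2 : 0 ≤ (6*a + b*e - d)) (hNW5 : 0 ≤ (-(3*a*c + 2*b*d + e))) : False := by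
  have p0 := mul_pos (mul_pos (hma) (hE1)) (hE2)
  have p1 := mul_pos (mul_pos (hma) (hb)) (hE2)
  have p2 := mul_pos (mul_pos (hma) (hmc)) (hE5)
  have p3 := mul_pos (hma) (hma)
  have p4 := mul_pos (mul_pos (hma) (hE1)) (hE4)
  have p5 := hW2
  have p6 := mul_pos (mul_pos (hma) (he)) (hE1)
  have p7 := mul_pos (mul_pos (hma) (hE0)) (hE1)
  have p8 := mul_pos (mul_pos (hma) (hE5)) (hE6)
  have p9 := mul_pos (mul_pos (hma) (hmc)) (hE3)
  have p10 := mul_pos (mul_pos (hma) (hE0)) (hE5)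
  have p11 := hNW5
  have p12 := mul_pos (hma) (he)
  have p13 := mul_pos (he) (hE1)
  have p14 := mul_nonneg (hb.le) (hd)
  have p15 := hd
  have h : (0:ℝ) < 0 := by
    linear_combination 39 * p0 + 96 * p1 + 414 * p2 + 1152 * p3 + 9 * p4 + 64 * p5 + 126 * p6 + 120 * p7 + 72 * p8 + 36 * p9 + 48 * p10 + 32 * p11 + 96 * p12 + 32 * p13 + 64 * p14 + 64 * p15
  exact lt_irrefl _ h

set_option maxRecDepth 200000 in
private theorem w5_6 (a b c d e : ℝ) (hma : 0 < (-a)) (hb : 0 < b) (hmc : 0 < (-c)) (hmd : 0 < (-d)) (he : 0 < e) (hE0 : 0 < (1 - c + d - e)) (hE1 : 0 < (1 + 3*a - 2*b)) (hE2 : 0 < (3 + 15*c - 5*d - e)) (hE5 : 0 < (1 + 3*a + 2*b)) (hE6 : 0 < (1 + c + d + e)) (hW1 : 0 ≤ (a*e - c)) (hW3 : 0 ≤ (a*e + c + b)) (hW4 : 0 ≤ (5*(a*d + b*c) + 3*(b*e + d) + 2)) (hNW5 : 0 ≤ (-(3*a*c + 2*b*d + e))) (hb2 : 0 ≤ (2*a + b^2)) (hc35 : 0 ≤ (c*d + d*e + 2*e + (1 + a)*(2*c + d*e))) (hp36 : 0 ≤ ((c^2 + d^2 + e^2 + 2)*b - (2*c + d*e)*(-(a^2 + b^2 + 1)))) (hp45 :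 0 ≤ ((c*d + d*e + 2*e)*(1 - 2*a) - (2*c*e + 4*d + e^2)*(-(b + a*b)))) (hn1203 : 0 ≤ ((1 + 3*a - 2*b)*(3 + 15*c - 5*d - e) - 9*((1 - c + d - e)*(1 - 5*a)))) : False := by
  have p0 := mul_pos (mul_pos (mul_pos (mul_pos (hma) (hmc)) (he)) (hE1)) (hE1)
  have p1 := mul_pos (mul_pos (mul_pos (mul_pos (hma) (hma)) (hmc)) (he)) (hE1)
  have p2 := mul_pos (mul_pos (mul_pos (mul_pos (hma) (hmc)) (hE1)) (hE1)) (hE2)
  have p3 := mul_pos (mul_pos (mul_pos (mul_pos (hma) (hmc)) (hmc)) (hE1)) (hE1)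
  have p4 := mul_pos (mul_pos (mul_pos (mul_pos (hma) (hma)) (hma)) (hmc)) (he)
  have p5 := mul_pos (mul_pos (mul_pos (mul_pos (hma) (hb)) (hmc)) (he)) (hE1)
  have p6 := mul_pos (mul_pos (mul_pos (mul_pos (hmc) (he)) (hE1)) (hE1)) (hE1)
  have p7 := mul_pos (mul_pos (mul_pos (mul_pos (hma) (hma)) (hmc)) (he)) (hE5)
  have p8 := mul_pos (mul_pos (mul_pos (hma) (hma)) (hmc)) (hE1)
  have p9 := mul_pos (mul_pos (mul_pos (mul_pos (hma) (hb)) (hmc)) (hmd)) (hE1)
  have p10 := mul_pos (mul_pos (mul_pos (mul_pos (hma) (hma)) (he)) (hE1)) (hE2)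
  have p11 := mul_pos (mul_pos (mul_pos (mul_pos (hb) (hmc)) (he)) (hE1)) (hE1)
  have p12 := mul_pos (mul_pos (mul_pos (mul_pos (hma) (hb)) (hmc)) (hE1)) (hE6)
  have p13 := mul_pos (mul_pos (mul_pos (mul_pos (hma) (hma)) (hma)) (hmc)) (hE0)
  have p14 := mul_pos (mul_pos (mul_pos (hma) (hma)) (hb)) (hmc)
  have p15 := mul_pos (mul_pos (mul_pos (mul_pos (hma) (hma)) (hb)) (he)) (hE2)
  have p16 := mul_pos (mul_pos (mul_pos (mul_pos (hma) (hmc)) (hE1)) (hE1)) (hE6)
  have p17 := mul_pos (mul_pos (mul_pos (hma) (hma)) (hmc)) (hmd)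
  have p18 := mul_pos (mul_pos (mul_pos (mul_pos (hma) (hma)) (he)) (hE0)) (hE1)
  have p19 := mul_pos (mul_pos (mul_pos (hma) (hma)) (hmc)) (hE2)
  have p20 := mul_pos (mul_pos (mul_pos (hma) (he)) (hE1)) (hE1)
  have p21 := mul_pos (mul_pos (mul_pos (mul_pos (hma) (hma)) (he)) (he)) (hE1)
  have p22 := mul_pos (mul_pos (mul_pos (mul_pos (hma) (he)) (hE1)) (hE2)) (hE5)
  have p23 := mul_pos (mul_pos (mul_pos (hma) (hb)) (hb)) (hmc)
  have p24 := mul_pos (mul_pos (mul_pos (mul_pos (hb) (hmc)) (he)) (hE1)) (hE5)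
  have p25 := mul_pos (mul_pos (mul_pos (hma) (hma)) (hma)) (he)
  have p26 := mul_pos (mul_pos (mul_pos (mul_pos (hma) (hb)) (hb)) (hE0)) (hE2)
  have p27 := mul_pos (mul_pos (mul_pos (mul_pos (he) (he)) (hE1)) (hE1)) (hE1)
  have p28 := mul_pos (mul_pos (mul_pos (mul_pos (hma) (hma)) (hma)) (hmd)) (he)
  have p29 := mul_pos (mul_pos (mul_pos (mul_pos (hma) (he)) (hE1)) (hE1)) (hE6)
  have p30 := mul_pos (mul_pos (mul_pos (mul_pos (he) (he)) (hE1)) (hE1)) (hE5)
  have p31 := mul_nonneg (mul_nonneg (hmc.le) (hmd.le)) (hb2)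
  have p32 := mul_pos (mul_pos (mul_pos (mul_pos (hma) (hb)) (hb)) (hE0)) (hE6)
  have p33 := mul_pos (mul_pos (mul_pos (mul_pos (hma) (hma)) (hb)) (hE0)) (hE0)
  have p34 := mul_nonneg (hb.le) (hNW5)
  have p35 := mul_nonneg (mul_nonneg (hb.le) (hE2.le)) (hb2)
  have p36 := mul_nonneg (mul_nonneg (hmc.le) (hE1.le)) (hW3)
  have p37 := mul_pos (mul_pos (mul_pos (hma) (hma)) (he)) (hE0)
  have p38 := mul_pos (mul_pos (mul_pos (hma) (hb)) (hE0)) (hE6)
  have p39 := mul_nonneg (hW3) (hn1203)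
  have p40 := mul_pos (mul_pos (mul_pos (mul_pos (hb) (hb)) (he)) (hE0)) (hE1)
  have p41 := mul_nonneg (he.le) (hn1203)
  have p42 := hNW5
  have p43 := mul_nonneg (hE5.le) (hp45)
  have p44 := mul_pos (mul_pos (mul_pos (hma) (hb)) (hmc)) (hE6)
  have p45 := mul_pos (mul_pos (mul_pos (mul_pos (hb) (hb)) (hb)) (he)) (hE0)
  have p46 := mul_pos (mul_pos (mul_pos (mul_pos (hma) (hma)) (hb)) (hmd)) (hE2)
  have p47 := mul_nonneg (mul_nonneg (hE2.le) (hE5.le)) (hNW5)
  have p48 := hp45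
  have p49 := mul_nonneg (mul_nonneg (hma.le) (hE0.le)) (hW3)
  have p50 := mul_nonneg (mul_nonneg (hb.le) (hE2.le)) (hNW5)
  have p51 := mul_pos (mul_pos (mul_pos (mul_pos (hma) (hb)) (hE1)) (hE6)) (hE6)
  have p52 := mul_nonneg (hb.le) (hp45)
  have p53 := mul_pos (mul_pos (mul_pos (mul_pos (hma) (hma)) (hb)) (hmd)) (hE0)
  have p54 := mul_pos (mul_pos (mul_pos (hma) (hb)) (he)) (hE0)
  have p55 := mul_pos (mul_pos (mul_pos (hma) (hb)) (hmc)) (hE2)
  have p56 := mul_nonneg (mul_nonneg (hb.le) (hW4)) (hW4)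
  have p57 := mul_pos (mul_pos (mul_pos (mul_pos (hma) (hma)) (hmc)) (hE0)) (hE5)
  have p58 := mul_nonneg (mul_nonneg (hb.le) (hE1.le)) (hc35)
  have p59 := mul_pos (mul_pos (mul_pos (mul_pos (hma) (hb)) (hE0)) (hE0)) (hE1)
  have p60 := mul_nonneg (mul_nonneg (hE5.le) (hW3)) (hNW5)
  have p61 := mul_pos (mul_pos (mul_pos (mul_pos (hb) (hb)) (hE1)) (hE2)) (hE2)
  have p62 := mul_nonneg (mul_nonneg (hma.le) (hmc.le)) (hW3)
  have p63 := mul_nonneg (hmc.le) (hb2)
  have p64 := mul_nonneg (he.le) (hNW5)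
  have p65 := mul_nonneg (hE6.le) (hNW5)
  have p66 := mul_nonneg (mul_nonneg (mul_nonneg (hb.le) (hmd.le)) (hE1.le)) (hW3)
  have p67 := mul_nonneg (hE1.le) (hc35)
  have p68 := mul_nonneg (mul_nonneg (hmd.le) (he.le)) (hb2)
  have p69 := mul_pos (mul_pos (mul_pos (mul_pos (hb) (he)) (he)) (hE1)) (hE5)
  have p70 := mul_pos (mul_pos (mul_pos (mul_pos (hmc) (hmc)) (hE1)) (hE1)) (hE1)
  have p71 := mul_pos (mul_pos (mul_pos (hma) (he)) (hE0)) (hE1)
  have p72 := mul_pos (mul_pos (mul_pos (mul_pos (hb) (hb)) (hE0)) (hE1)) (hE2)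
  have p73 := mul_nonneg (mul_nonneg (hb.le) (hE1.le)) (hW3)
  have p74 := mul_nonneg (mul_nonneg (mul_nonneg (hb.le) (hE5.le)) (hE6.le)) (hNW5)
  have p75 := mul_nonneg (mul_nonneg (hb.le) (hb.le)) (hn1203)
  have p76 := mul_nonneg (mul_nonneg (hb.le) (hE6.le)) (hNW5)
  have p77 := mul_nonneg (mul_nonneg (hb.le) (hE0.le)) (hW3)
  have p78 := mul_nonneg (mul_nonneg (mul_nonneg (hb.le) (hE1.le)) (hE6.le)) (hW4)
  have p79 := mul_nonneg (hE1.le) (hp36)
  have p80 := mul_pos (mul_pos (mul_pos (mul_pos (hb) (hb)) (hmd)) (hE1)) (hE6)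
  have p81 := mul_nonneg (hW1) (hW3)
  have p82 := mul_nonneg (mul_nonneg (mul_nonneg (hb.le) (hb.le)) (hE0.le)) (hW3)
  have p83 := mul_nonneg (he.le) (hb2)
  have p84 := mul_nonneg (mul_nonneg (hb.le) (hE0.le)) (hW4)
  have p85 := mul_nonneg (mul_nonneg (hma.le) (hE6.le)) (hNW5)
  have p86 := mul_pos (mul_pos (mul_pos (mul_pos (hma) (hb)) (hb)) (hmd)) (hE0)
  have p87 := mul_pos (mul_pos (mul_pos (hma) (hb)) (hE0)) (hE0)
  have p88 := mul_nonneg (mul_nonneg (he.le) (hE1.le)) (hW3)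
  have h : (0:ℝ) < 0 := by
    linear_combination 6925485677890607362208 * p0 + 21465063373449400891400 * p1 + 318456653272839390072 * p2 + 4208638840726624904144 * p3 + 37829191750521344082048 * p4 + 12536625173754648808480 * p5 + 521746076281423116416 * p6 + 7903462092381496113032 * p7 + 7706017355328651312448 * p8 + 7667029672459841286928 * p9 + 497090633649942151120 * p10 + 1571824508530476513456 * p11 + 4294732230173984796656 * p12 + 10716560535593663496144 * p13 + 7643820142315603085616 * p14 + 416582699243897256888 * p15 + 501435848706059479312 * p16 + 5211395105772699960288 * p17 + 1729965740155316818164 * p18 + 341056733701426524252 * p19 + 390660885457918454144 * p20 + 1549263129329340761728 * p21 + 33701877374145512752 * p22 + 4546327547241360284064 * p23 + 412667563217786375024 * p24 + 3576446690759201089080 * p25 + 139546783989056556907 * p26 + 44691799141488414664 * p27 + 2316658861608908606280 * p28 + 184596397148114865988 * p29 +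 80916734613825615032 * p30 + 975250791209087480128 * p31 + 929367328015094623981 * p32 + 904333183952650502901 * p33 + 592423272743669921792 * p34 + 58645038308897145984 * p35 + 576620706985330445744 * p36 + 1715450652950804110188 * p37 + 835656803178085953384 * p38 + 30450465466294651520 * p39 + 511173399201370925280 * p40 + 27459337565863102560 * p41 + 488304225935725245184 * p42 + 89147383544661265920 * p43 + 1312168698670600200168 * p44 + 1213118757104745862720 * p45 + 75952469490215474880 * p46 + 8290699340052592752 * p47 + 277336574974832876160 * p48 + 1087428475354988566008 * p49 + 23355806152924557856 * p50 + 172456916124425419796 * p51 + 252003237290771265984 * p52 + 971403464436539944800 * p53 + 968480626567049967976 * p54 + 63593474984120409856 * p55 + 18485953864568455680 * p56 + 299644592223475418904 * p57 + 108891307141189337984 * p58 + 128987478526458081171 * p59 + 84787629817800786624 * p60 + 1114536652730186176 * p61 + 660671417641976055568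 * p62 + 308942469888425534880 * p63 + 178893249917082839168 * p64 + 174680683705188603760 * p65 + 168491267429279628768 * p66 + 59822558008630979200 * p67 + 230818587862662574144 * p68 + 49806185618881568288 * p69 + 7066870195370681600 * p70 + 121879620991371885472 * p71 + 6075192964161287520 * p72 + 119707595566433322784 * p73 + 29568133283842589600 * p74 + 5578275512593161296 * p75 + 83122465132960326560 * p76 + 228855067199850231648 * p77 + 8632818024750078560 * p78 + 31528838390252975360 * p79 + 56623718065133396000 * p80 + 161257334401111872336 * p81 + 153462546815845251680 * p82 + 57461263580171176000 * p83 + 14217832254743989280 * p84 + 29951051619356195108 * p85 + 69890398421656698312 * p86 + 12635630339354361145 * p87 + 2947054594129724480 * p88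
  exact lt_irrefl _ h

set_option maxRecDepth 200000 in
private theorem w5_7 (a b c d e : ℝ) (hma : 0 < (-a)) (hb : 0 < b) (hmc : 0 < (-c)) (hmd : 0 < (-d)) (he : 0 < e) (hE0 : 0 < (1 - c + d - e)) (hE1 : 0 < (1 + 3*a - 2*b)) (hE2 : 0 < (3 + 15*c - 5*d - e)) (hE5 : 0 < (1 + 3*a + 2*b)) (hE6 : 0 < (1 + c + d + e)) (hW1 : 0 ≤ (a*e - c)) (hW2 : 0 ≤ (6*a + b*e - d)) (hW3 : 0 ≤ (a*e + c + b)) (hW4 : 0 ≤ (5*(a*d + b*c) + 3*(b*e + d) + 2)) (hNW5 : 0 ≤ (-(3*a*c + 2*b*d + e))) (hmb2 : 0 ≤ (-(2*a + b^2))) (hc13 : 0 ≤ (c*d - a*(2*c + d*e))) (hc35 : 0 ≤ (c*d + d*e + 2*e + (1 + a)*(2*c + d*e))) (hp32 : 0 ≤ ((2*c*e + d^2)*b - (2*c + d*e)*(2*a + b^2))) (hp36 : 0 ≤ ((c^2 + d^2 + e^2 + 2)*b - (2*c + d*e)*(-(a^2 + b^2 + 1)))) (hp41 : 0 ≤ ((c*d)*(1 - 2*a) - (2*c*e + 4*d + e^2)*(a*b))) (hp42 : 0 ≤ ((2*c*e + d^2)*(1 - 2*a) - (2*c*e + 4*d + e^2)*(2*a + b^2))) (hp45 : 0 ≤ ((c*d + d*e + 2*e)*(1 - 2*a) - (2*c*e + 4*d + e^2)*(-(b + a*b)))) (hn1203 : 0 ≤ ((1 + 3*a - 2*b)*(3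 + 15*c - 5*d - e) - 9*((1 - c + d - e)*(1 - 5*a)))) : False := by
  have p0 := mul_nonneg (hW3) (hp41)
  have p1 := mul_pos (mul_pos (mul_pos (hmc) (hmc)) (hmc)) (hE1)
  have p2 := mul_nonneg (hE0.le) (hp45)
  have p3 := mul_pos (mul_pos (mul_pos (hma) (hmc)) (he)) (hE0)
  have p4 := mul_pos (mul_pos (mul_pos (hma) (hmc)) (hE0)) (hE0)
  have p5 := mul_nonneg (hb.le) (hNW5)
  have p6 := mul_nonneg (hc35) (hn1203)
  have p7 := mul_nonneg (mul_nonneg (hmc.le) (hmc.le)) (hW2)
  have p8 := mul_nonneg (hb.le) (hp45)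
  have p9 := mul_nonneg (mul_nonneg (hb.le) (he.le)) (hNW5)
  have p10 := mul_nonneg (mul_nonneg (he.le) (hE1.le)) (hc35)
  have p11 := mul_nonneg (mul_nonneg (hmc.le) (hmc.le)) (hn1203)
  have p12 := mul_pos (mul_pos (mul_pos (hmc) (hmc)) (hE1)) (hE1)
  have p13 := mul_nonneg (mul_nonneg (mul_nonneg (hmc.le) (hmd.le)) (hE1.le)) (hW3)
  have p14 := mul_nonneg (mul_nonneg (mul_nonneg (hma.le) (hE0.le)) (hE0.le)) (hW3)
  have p15 := mul_nonneg (hW2) (hc35)
  have p16 := mul_nonneg (hE0.le) (hNW5)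
  have p17 := mul_nonneg (mul_nonneg (hmc.le) (hE1.le)) (hc35)
  have p18 := mul_nonneg (hmc.le) (hp42)
  have p19 := mul_nonneg (mul_nonneg (hE0.le) (hE5.le)) (hNW5)
  have p20 := mul_nonneg (hE6.le) (hNW5)
  have p21 := mul_nonneg (mul_nonneg (hE1.le) (hE6.le)) (hNW5)
  have p22 := mul_nonneg (mul_nonneg (hmd.le) (hE1.le)) (hp32)
  have p23 := mul_nonneg (mul_nonneg (hb.le) (hmc.le)) (hp45)
  have p24 := mul_nonneg (hW3) (hNW5)
  have p25 := mul_nonneg (mul_nonneg (hmc.le) (hE5.le)) (hp42)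
  have p26 := mul_nonneg (mul_nonneg (he.le) (hE1.le)) (hp32)
  have p27 := hNW5
  have p28 := mul_nonneg (mul_nonneg (hE0.le) (hE5.le)) (hc35)
  have p29 := mul_nonneg (mul_nonneg (hmc.le) (hW3)) (hNW5)
  have p30 := hp45
  have p31 := mul_nonneg (hE6.le) (hp45)
  have p32 := mul_nonneg (mul_nonneg (hb.le) (hE1.le)) (hc35)
  have p33 := mul_nonneg (hNW5) (hp32)
  have p34 := mul_nonneg (mul_nonneg (hma.le) (hmd.le)) (hp45)
  have p35 := mul_pos (mul_pos (mul_pos (hb) (hmc)) (he)) (hE0)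
  have p36 := mul_pos (mul_pos (mul_pos (hma) (hmc)) (hmc)) (hE0)
  have p37 := mul_nonneg (mul_nonneg (hma.le) (he.le)) (hp42)
  have p38 := mul_nonneg (mul_nonneg (hma.le) (he.le)) (hp41)
  have p39 := mul_pos (mul_pos (mul_pos (hma) (hb)) (hmc)) (hE0)
  have p40 := mul_nonneg (mul_nonneg (mul_nonneg (hma.le) (hmc.le)) (he.le)) (hW2)
  have p41 := mul_nonneg (mul_nonneg (hb.le) (hmc.le)) (hp41)
  have p42 := mul_nonneg (mul_nonneg (mul_nonneg (hma.le) (hmc.le)) (hW2)) (hW4)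
  have p43 := mul_pos (mul_pos (mul_pos (hb) (hmc)) (hmc)) (hE0)
  have p44 := mul_nonneg (mul_nonneg (hE5.le) (hE6.le)) (hp45)
  have p45 := mul_nonneg (mul_nonneg (hE5.le) (hW4)) (hNW5)
  have p46 := mul_nonneg (mul_nonneg (mul_nonneg (hb.le) (hmc.le)) (hmc.le)) (hW2)
  have p47 := mul_nonneg (mul_nonneg (mul_nonneg (hmd.le) (hE1.le)) (hW1)) (hW3)
  have p48 := mul_nonneg (hNW5) (hc35)
  have p49 := mul_nonneg (mul_nonneg (mul_nonneg (hma.le) (hmc.le)) (hW2)) (hW2)
  have p50 := mul_nonneg (mul_nonneg (mul_nonneg (he.le) (hE1.le)) (hE6.le)) (hNW5)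
  have p51 := mul_nonneg (mul_nonneg (hmc.le) (he.le)) (hn1203)
  have p52 := mul_nonneg (mul_nonneg (hmd.le) (hE1.le)) (hc35)
  have p53 := mul_pos (mul_pos (mul_pos (he) (he)) (hE1)) (hE1)
  have p54 := mul_nonneg (mul_nonneg (mul_nonneg (hb.le) (hb.le)) (hE0.le)) (hc35)
  have p55 := mul_pos (mul_pos (mul_pos (hma) (hmc)) (hmc)) (hE1)
  have p56 := mul_nonneg (mul_nonneg (mul_nonneg (hma.le) (hmd.le)) (hE1.le)) (hc35)
  have p57 := mul_nonneg (hW1) (hp45)
  have p58 := mul_pos (mul_pos (mul_pos (hb) (hmc)) (hE1)) (hE1)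
  have p59 := mul_nonneg (he.le) (hn1203)
  have p60 := mul_nonneg (mul_nonneg (he.le) (hE0.le)) (hn1203)
  have p61 := mul_nonneg (hW3) (hn1203)
  have p62 := mul_nonneg (mul_nonneg (hW2) (hW3)) (hW4)
  have p63 := mul_nonneg (hW4) (hNW5)
  have p64 := mul_nonneg (mul_nonneg (hE0.le) (hE2.le)) (hNW5)
  have p65 := mul_nonneg (mul_nonneg (he.le) (hE5.le)) (hp45)
  have p66 := mul_nonneg (hp32) (hn1203)
  have p67 := mul_nonneg (mul_nonneg (mul_nonneg (hb.le) (he.le)) (hE0.le)) (hNW5)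
  have p68 := mul_nonneg (mul_nonneg (he.le) (hE1.le)) (hn1203)
  have p69 := mul_pos (mul_pos (mul_pos (hb) (hmc)) (hmc)) (hE1)
  have p70 := mul_nonneg (mul_nonneg (hb.le) (he.le)) (hp41)
  have p71 := mul_nonneg (mul_nonneg (mul_nonneg (hma.le) (hmd.le)) (hmd.le)) (hNW5)
  have p72 := mul_nonneg (hE5.le) (hNW5)
  have p73 := mul_nonneg (mul_nonneg (mul_nonneg (hma.le) (hb.le)) (hE0.le)) (hW4)
  have p74 := mul_nonneg (mul_nonneg (hb.le) (hmd.le)) (hp45)
  have p75 := mul_nonneg (mul_nonneg (hE6.le) (hW2)) (hW3)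
  have p76 := mul_nonneg (mul_nonneg (hma.le) (hmc.le)) (hp41)
  have p77 := mul_nonneg (mul_nonneg (mul_nonneg (hmc.le) (hE1.le)) (hW1)) (hn1203)
  have p78 := mul_pos (mul_pos (mul_pos (hb) (hE0)) (hE0)) (hE0)
  have p79 := mul_nonneg (mul_nonneg (hmc.le) (hW1)) (hn1203)
  have p80 := mul_nonneg (mul_nonneg (he.le) (hE0.le)) (hNW5)
  have p81 := mul_nonneg (mul_nonneg (mul_nonneg (hb.le) (hmd.le)) (he.le)) (hW2)
  have p82 := mul_nonneg (hE1.le) (hc35)
  have p83 := mul_nonneg (mul_nonneg (mul_nonneg (hma.le) (he.le)) (hE0.le)) (hW3)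
  have p84 := mul_nonneg (mul_nonneg (hE2.le) (hW2)) (hW3)
  have p85 := mul_nonneg (mul_nonneg (mul_nonneg (he.le) (hE1.le)) (hW3)) (hW3)
  have p86 := mul_nonneg (mul_nonneg (hb.le) (hW2)) (hn1203)
  have p87 := mul_nonneg (mul_nonneg (mul_nonneg (hma.le) (hb.le)) (hE6.le)) (hW2)
  have p88 := mul_nonneg (mul_nonneg (mul_nonneg (hb.le) (he.le)) (hW4)) (hn1203)
  have p89 := mul_nonneg (mul_nonneg (hb.le) (hNW5)) (hc35)
  have p90 := mul_nonneg (mul_nonneg (mul_nonneg (he.le) (hE5.le)) (hW4)) (hNW5)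
  have p91 := mul_nonneg (mul_nonneg (hmc.le) (hE1.le)) (hp32)
  have p92 := mul_nonneg (mul_nonneg (mul_nonneg (hb.le) (he.le)) (hE1.le)) (hc35)
  have p93 := mul_nonneg (mul_nonneg (mul_nonneg (hma.le) (hE0.le)) (hW3)) (hW4)
  have p94 := mul_nonneg (mul_nonneg (mul_nonneg (hE0.le) (hE1.le)) (hE5.le)) (hNW5)
  have p95 := mul_nonneg (mul_nonneg (mul_nonneg (he.le) (hE1.le)) (hW1)) (hn1203)
  have p96 := mul_nonneg (mul_nonneg (hmd.le) (hW3)) (hNW5)
  have p97 := mul_nonneg (mul_nonneg (mul_nonneg (he.le) (hE5.le)) (hE5.le)) (hn1203)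
  have p98 := mul_nonneg (mul_nonneg (mul_nonneg (he.le) (he.le)) (hE1.le)) (hW3)
  have p99 := mul_nonneg (mul_nonneg (hE1.le) (hW1)) (hc35)
  have p100 := mul_nonneg (mul_nonneg (mul_nonneg (hb.le) (hmc.le)) (hW1)) (hW2)
  have p101 := mul_nonneg (mul_nonneg (mul_nonneg (hE1.le) (hE6.le)) (hW2)) (hNW5)
  have p102 := mul_nonneg (mul_nonneg (mul_nonneg (hma.le) (hE0.le)) (hE6.le)) (hW3)
  have p103 := mul_nonneg (mul_nonneg (mul_nonneg (he.le) (hE1.le)) (hW3)) (hNW5)
  have p104 := mul_nonneg (mul_nonneg (he.le) (hE1.le)) (hp36)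
  have p105 := mul_nonneg (mul_nonneg (hmc.le) (hE1.le)) (hp36)
  have p106 := mul_nonneg (mul_nonneg (he.le) (hW1)) (hn1203)
  have p107 := mul_nonneg (mul_nonneg (mul_nonneg (hb.le) (he.le)) (hE0.le)) (hW3)
  have p108 := mul_nonneg (mul_nonneg (hE1.le) (hW1)) (hW3)
  have p109 := mul_nonneg (mul_nonneg (mul_nonneg (hmd.le) (hE1.le)) (hW3)) (hNW5)
  have p110 := mul_nonneg (mul_nonneg (mul_nonneg (hma.le) (he.le)) (hW2)) (hW4)
  have p111 := mul_nonneg (mul_nonneg (hE0.le) (hE1.le)) (hNW5)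
  have p112 := mul_nonneg (mul_nonneg (hE1.le) (hE1.le)) (hNW5)
  have p113 := mul_pos (mul_pos (mul_pos (hb) (he)) (hE1)) (hE1)
  have p114 := mul_nonneg (mul_nonneg (mul_nonneg (hma.le) (hE6.le)) (hW1)) (hW2)
  have p115 := mul_nonneg (mul_nonneg (mul_nonneg (he.le) (hE0.le)) (hNW5)) (hmb2)
  have p116 := mul_nonneg (mul_nonneg (mul_nonneg (hma.le) (hE2.le)) (hW2)) (hW3)
  have p117 := mul_nonneg (he.le) (hp42)
  have p118 := mul_nonneg (mul_nonneg (hma.le) (hE0.le)) (hp36)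
  have p119 := mul_nonneg (mul_nonneg (mul_nonneg (hma.le) (hE0.le)) (hW1)) (hW4)
  have p120 := mul_nonneg (mul_nonneg (mul_nonneg (hb.le) (hb.le)) (he.le)) (hNW5)
  have p121 := mul_nonneg (mul_nonneg (mul_nonneg (hma.le) (hmc.le)) (hE1.le)) (hW4)
  have p122 := mul_nonneg (mul_nonneg (mul_nonneg (hma.le) (hE1.le)) (hE6.le)) (hc13)
  have p123 := mul_nonneg (mul_nonneg (mul_nonneg (hb.le) (he.le)) (hNW5)) (hn1203)
  have p124 := mul_nonneg (mul_nonneg (hmc.le) (hE6.le)) (hNW5)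
  have p125 := mul_nonneg (mul_nonneg (mul_nonneg (hb.le) (hE0.le)) (hW3)) (hW4)
  have p126 := mul_nonneg (mul_nonneg (mul_nonneg (hma.le) (he.le)) (hE1.le)) (hc13)
  have p127 := mul_nonneg (mul_nonneg (mul_nonneg (hb.le) (hE2.le)) (hW3)) (hNW5)
  have p128 := mul_nonneg (mul_nonneg (mul_nonneg (hb.le) (hE2.le)) (hW1)) (hNW5)
  have p129 := mul_nonneg (mul_nonneg (hmc.le) (hE0.le)) (hW3)
  have p130 := mul_nonneg (mul_nonneg (mul_nonneg (hmc.le) (hE0.le)) (hW3)) (hmb2)
  have p131 := mul_nonneg (he.le) (hp41)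
  have p132 := mul_nonneg (mul_nonneg (mul_nonneg (hb.le) (hmd.le)) (hmd.le)) (hNW5)
  have p133 := mul_nonneg (mul_nonneg (mul_nonneg (hE0.le) (hE5.le)) (hE5.le)) (hc35)
  have p134 := mul_nonneg (mul_nonneg (mul_nonneg (hE1.le) (hE5.le)) (hE6.le)) (hNW5)
  have p135 := mul_nonneg (mul_nonneg (mul_nonneg (hmd.le) (hE1.le)) (hW2)) (hW3)
  have p136 := mul_nonneg (mul_nonneg (mul_nonneg (hmc.le) (hE0.le)) (hE1.le)) (hW4)
  have p137 := mul_nonneg (mul_nonneg (hE0.le) (hW1)) (hW4)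
  have p138 := mul_nonneg (mul_nonneg (hE1.le) (hW4)) (hNW5)
  have p139 := mul_nonneg (mul_nonneg (mul_nonneg (hb.le) (hE0.le)) (hW3)) (hNW5)
  have p140 := mul_nonneg (mul_nonneg (hE0.le) (hE6.le)) (hNW5)
  have p141 := mul_nonneg (mul_nonneg (mul_nonneg (he.le) (he.le)) (hmb2)) (hn1203)
  have p142 := mul_nonneg (mul_nonneg (mul_nonneg (he.le) (hE1.le)) (hE1.le)) (hNW5)
  have p143 := mul_nonneg (mul_nonneg (mul_nonneg (he.le) (hE1.le)) (hW4)) (hW4)
  have p144 := mul_nonneg (mul_nonneg (mul_nonneg (hb.le) (hE6.le)) (hW2)) (hW3)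
  have p145 := mul_nonneg (mul_nonneg (hmd.le) (hW3)) (hn1203)
  have p146 := mul_nonneg (mul_nonneg (hb.le) (hW2)) (hc13)
  have p147 := mul_nonneg (mul_nonneg (mul_nonneg (he.le) (hE1.le)) (hW1)) (hNW5)
  have p148 := mul_nonneg (mul_nonneg (hb.le) (hmd.le)) (hp41)
  have p149 := mul_nonneg (mul_nonneg (mul_nonneg (hma.le) (he.le)) (hW1)) (hW2)
  have p150 := mul_nonneg (mul_nonneg (mul_nonneg (hb.le) (hb.le)) (hE0.le)) (hc13)
  have p151 := mul_nonneg (mul_nonneg (hb.le) (hE0.le)) (hp36)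
  have p152 := mul_nonneg (mul_nonneg (mul_nonneg (hE0.le) (hE5.le)) (hW3)) (hn1203)
  have p153 := mul_nonneg (mul_nonneg (hb.le) (hE1.le)) (hn1203)
  have p154 := mul_nonneg (mul_nonneg (mul_nonneg (he.le) (hE0.le)) (hW1)) (hmb2)
  have p155 := mul_nonneg (mul_nonneg (mul_nonneg (hb.le) (hmc.le)) (hE1.le)) (hn1203)
  have p156 := mul_nonneg (mul_nonneg (mul_nonneg (hma.le) (hma.le)) (he.le)) (hW2)
  have p157 := mul_nonneg (mul_nonneg (mul_nonneg (hE0.le) (hE5.le)) (hW1)) (hNW5)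
  have p158 := mul_nonneg (mul_nonneg (mul_nonneg (hE1.le) (hE6.le)) (hW1)) (hNW5)
  have p159 := mul_nonneg (mul_nonneg (he.le) (hE1.le)) (hp42)
  have p160 := mul_nonneg (mul_nonneg (hW1) (hW4)) (hNW5)
  have p161 := mul_nonneg (mul_nonneg (mul_nonneg (he.le) (he.le)) (hW2)) (hmb2)
  have p162 := mul_nonneg (mul_nonneg (mul_nonneg (hma.le) (hb.le)) (hE0.le)) (hW3)
  have p163 := mul_pos (mul_pos (mul_pos (hb) (hb)) (he)) (hE0)
  have p164 := mul_nonneg (mul_nonneg (mul_nonneg (hE0.le) (hE0.le)) (hW3)) (hmb2)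
  have p165 := mul_nonneg (mul_nonneg (mul_nonneg (hb.le) (he.le)) (he.le)) (hn1203)
  have h : (0:ℝ) < 0 := by
    linear_combination 30793725749809411552386179498035426022163770201659274428479058286533246306352234016000 * p0 + 43541986858668127111932450464484888412569659445308851620501750596146488713850160320000 * p1 + 19598311096411627799827820442627417595528713976219872681618869931925301392206127821000 * p2 + 115332496652866417606746587898778949620047047696946251860835007613083947082248225028000 * p3 + 55700855622210559955930029275168029215568063572323871378539424071315771906950339988000 * p4 + 34217217763052113658943670573163194592523158620050319597914800433309638982382905516560 * p5 + 576276173391419289457786574736847824295246310475316990022596689422550978808815951750 * p6 + 14841195310634381426331496308057825721100036291299876343724210523193185644876034260000 * p7 + 22002647333293343515635085395626097664193896152621211927005083787121584128116275396000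 * p8 + 28674706762709343747140062025294941616105024409358897148540316225868710868567175089344 * p9 + 9634946041281217654257862191593416783588480752111592522411781700632746518205096066875 * p10 + 1322673457390212198134442821723044926737406977379845791600904619957101775518956158000 * p11 + 5700017964457482271598609496717752273043692448744285087094444733395668174279259968000 * p12 + 21291812298645386163943308627281673842625655342675887630841614317369293378190268288000 * p13 + 31391069420791960923389646646975372908882936927237507138633599094233413744041723744000 * p14 + 5229763606443763352079992817394617191024185876490580672994979761222538991154881306000 * p15 + 20176276444354413158616581637533308397575064700058024422573605905713607952223755811152 * p16 + 7450465359129618905758755186342155261429281352226491875746897758587346943004139227125 * p17 + 7239299655556976724023635077345852193452870477778991909030227899777635279110843272000 * p18 + 6130923119637868220993509366463342943857169023558321740565457811520645604832076125340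 * p19 + 17814708102252351761768214329702103722526184443213371733667239359679605936715392985552 * p20 + 5839913012873585438494546572967979926022783545985706462716133861728086167586627990440 * p21 + 4251717244562530559568937179643561329951592579483604337289396417658359135446129192000 * p22 + 12638851885781121365971144917649395974271908028585168089480881140362889343764242880000 * p23 + 16716964810383688725526474977435507492534205414271251837383332152639685721184784604000 * p24 + 2050234975342775330448128179152259233800088919202687379744419522030993334704313000000 * p25 + 4006543198812648663881414355143182573234700385541438088172560584833070898528437824000 * p26 + 15888316901700604294014407026896526746212730015261318570083666926377749642771229679552 * p27 + 3390128539261375068870492835407241683815752414434334584804410264389096044304017754875 * p28 + 14365459970183799371550984213050734478958416643437708154283250158058015106806256516000 * p29 + 10412858062075919204299876673580153888657391124962790261713260092429234115844681560000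 * p30 + 6450273000481892136883749628924892990169304859186228977805918838100957378974152313000 * p31 + 4828576360856063562595203094166825620088723347546123401584634315670203329632531956000 * p32 + 3110806227141923967253524007536105727944725029812353110447985079074322130433063484000 * p33 + 9102948711632704237475180807571948064028812214198468206160518462204909541744398764000 * p34 + 36321157878838261695760584892563982987737124528412207615331192827356658288570422476000 * p35 + 36068286669584031434777225811713240105587537501056417624752452980642804344435918940000 * p36 + 4494026525318689473957136386190700800040027513244118217958140403865798365907288164000 * p37 + 8963390332846010952477620940087342881566547405766662954311214636165899079997378810000 * p38 + 35818295669194500133796076997534092509885025294970458667070583244263986381155340532000 * p39 + 5928403030617004790943842917093279264222556940541954480706761514895030163654803732000 * p40 + 8522206367280898425075665873910670008507497777132499452505157418960682698177444148000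 * p41 + 1131829720607662557601233098718571533460080385552518153114901263858110033238690696000 * p42 + 33433210758374617197651361498095500657220476962181176381815777902787121373891109252000 * p43 + 1847925771670475394245910371529811545455537529497628700614168965808996545634196002000 * p44 + 728103841779302499522720673981042556627586159371007564749511590575886204379631165200 * p45 + 5274403437138713539848032064825780294769112677060459553863037377110310205105824518000 * p46 + 10471502700886563422799195044540274120603792538926159912290529540477806229289072812000 * p47 + 3844048275947192982310070829992174865291835366641097948133631043322466569820964032000 * p48 + 834535196026263024295477838700620026812645700283585778101878933256249529167683014000 * p49 + 3325645289755669875141666940027613222377080121616928794298890367329146249755140784000 * p50 + 553542347602621791592663693703180728699656874040564755246913707194594664863505722000 * p51 + 3681133648612059462948159128161433623312750061991493546029382147947037916110619088375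 * p52 + 2425428636568575451814281148603655342323837140906511189347155172189236668383805172000 * p53 + 6619561954513343500841481290196531702167164876291271709076440430522408064514173112000 * p54 + 8673182033654065922563290769693183546711787130357767890436093695939930573156615128000 * p55 + 3180676105960670778054962886161363153120480069860338150479372555329314972680808816000 * p56 + 6290816918129790244642653638971108004711111797123742075029782790020477146999951106000 * p57 + 2068911600862062032091380174732279226865154986411857435351533473580531833574188752000 * p58 + 451033984796391812462801597637172109230847052207605671298170196437325902200458370000 * p59 + 235642529108653236843232477950249023414665561956323749924313188780391508837230628000 * p60 + 426561546677333113514497171745104804880160990377116398997604870021567492616265512000 * p61 + 757646901770280980310429666124088078126026503837774250174922573360417544146052840000 * p62 + 1436985928231455409652168825583906178553146015335017232090718441572787853273130156672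 * p63 + 341505465246502836063889142004878070464644204253532470183430390100367216574733174800 * p64 + 1200421465373216106474255076426892097219031170072321681727729799239932519123299406000 * p65 + 87727852590187908788395038820681510657694126480039825168406166464677740563091404000 * p66 + 6315798253548365113763309755245749523374595261724183912355885442375984044161360368000 * p67 + 116919944006798723086894379661432000052036570187218818420309713659006163728611972000 * p68 + 6225720910610321608168290495534361974407048563156163812023840433511140690139990040000 * p69 + 4663002349048103265041663964158063030845476905029678102892587503180502801358562504000 * p70 + 6210753647568416983123508738209717519085003626230670194938286924639977926920920052000 * p71 + 2066052788673446865420758760428021339895724666606564528616773290318706707378853469120 * p72 + 2314344776819929721227875196377949423944214180820456645561059999305827952472646277000 * p73 + 4245887664692412602282910405952462638755846871938757507185052933580549494363753120000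 * p74 + 2762082504421304735620100993416391968458949990053703120723465224759307586516088378000 * p75 + 4018043305031466476768521826943630235815421018325836931843297647240781800548420906000 * p76 + 74180905414517770348489927018832510075246522846723178377138964832189837913397603000 * p77 + 2613430958158404509485220966396300215204092590250843030638895507787778433638368656000 * p78 + 216886394993844356215863570554994449380530968345349290884012140436038468809786199000 * p79 + 5103360751738523377420337793514949870436555399438651809314460195142001436533947688800 * p80 + 2461407802057673169578260766739264248740972936657050752123885638880824165409662704000 * p81 + 1784579025135023908921648022778744567511167314453101437354868959943876950884258231625 * p82 + 14220145336572582456272664839651037934902835873607450735634658060574641969592956272000 * p83 + 155753833686913505622086064412130776190406291495820013316081846557593065073878150000 * p84 + 2266209157746469611401209758802967902352443518012745657909798790234190067011837600000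 * p85 + 41757084942512470102788491006549863349831768635322615828377042795839063381582666000 * p86 + 2247445558841038236195756281083534045732033235668126641420242453780150785056188463000 * p87 + 49770776138236788961468015740528830178733288746546870134933468831357260293299724000 * p88 + 1635651660965431024788162247687617934345496373553839910666001276822989173618969702000 * p89 + 285162319752757987838916496739826802199090785128397138355345180994775522561919688000 * p90 + 1067736734151660685990664394992365782641534788080629366706656243859051277976148612000 * p91 + 1567930833906374269106665108931939170831957260979672108337917127120717957970225918000 * p92 + 1463440639988498280886049983512317238003465304938488656216117271749185979416694995000 * p93 + 412142145938348016943550454797974167889252581786211818761365517471723240939843958000 * p94 + 50924740487281733669283682779569007971928927932833895811183380081286206832222834000 * p95 + 3380426783624550638129751433493625666658033068928389599837568320777416862552488182000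 * p96 + 16754954530050709600134039926148795954498342574332763822282786259177230921868820000 * p97 + 3172464245576766483939202528363265739193722728867265113718353807899370389221852384000 * p98 + 1180603916589063936220602821358451663741519175292089950877297289611740232683494972000 * p99 + 1572888553220407510513385154499327192076848765488502250089519901508071995215406746000 * p100 + 174641021233739434772255780463544389376881280791396533149307742216842552465625516000 * p101 + 4646482271089598498977975021336482713381501476456911550411175212980290790336440544000 * p102 + 1026127994828117639175759898587067397382721244700843032255922168497773077278608890000 * p103 + 1526495599617946905797451701217026003764808147309508694321404247249078663422068688000 * p104 + 1521317004462826613403002256857641062665160930503652754359018138794846527753241196000 * p105 + 126405888221947529187469776629440875428198027590476541994162579467515476685517677000 * p106 + 8878506584058770753972883569233556973778823822892315429899662913741172130802761686000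 * p107 + 2893800318353812375064334077955959133773530154491202697623377216805057539884538080000 * p108 + 956013681388240908208700119816534866625669747472955282059339691440211304735964664000 * p109 + 286278518498386042484481955226251873943529327716323199587318086220587428572807896000 * p110 + 709279654117111894537340639598236935249125965976697664751676309485949224382813927100 * p111 + 235473034936375518131604059480296009404459704530148104927066950934534069663737684000 * p112 + 678160111314492179405776163972803228466838318317224470398283344503403324235357264000 * p113 + 1286295187835399531889469085971153232208777296904274593423726143462638975249755933000 * p114 + 1282394054810714464903089678061916348016449652832429846977988779929069195438291184000 * p115 + 83571526493153792382297648311893270604317395528648492750605383885946429427588543000 * p116 + 839664816125993032357975602624403859172731446764774121172558737639108670124231684000 * p117 + 3346037266557316159825591784890462704307340993160101331956416043546265979189947744000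 * p118 + 811454023956878446832657497522642349314478277944334942595120725639261956836954299000 * p119 + 2153886252191894938197881388130846011868563626551916539170872368156179024681667017600 * p120 + 414559558253814447594654467459563482528259605594829753322172546013696396324435728000 * p121 + 1011601874251048497283155151105962156468834026174754801001751801006404304320135494000 * p122 + 35942096517213199614128318703311746271067532595127154254393594964895892901463040000 * p123 + 1879821712847158031561200257816152905421003765414680332942480753596525523454116288000 * p124 + 682608100864590231623333672416613859282353315613099250021384617265142031164901528000 * p125 + 843297760923594914019608687055927023986413096478618481931625015793633260419456060000 * p126 + 110670442915864425383810647181109603325651411222253278376337828742809126244149564000 * p127 + 109808451502595400513680630696735827277654425129871453288311492619644188106228662000 * p128 + 4901297864323870121523542308668135384083304710964454030325914917572340670506230496000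 * p129 + 2442332772159051248719575350655786491367544256258156581605149239894233290895007896000 * p130 + 1214647049016079497615963810699232586424780340583038771642497758784501115962103236000 * p131 + 1537563386169552064663947119538749867777376914096156268335600542667370939370882608000 * p132 + 78511883512771333020894043618118910997866794949412162115234982302679905329895736000 * p133 + 145103431197316541049261417950319151116049955435174160821824269294098888669449890000 * p134 + 189477911209037523464903140170924683729573975452731474891212439165820417656129504000 * p135 + 122721357947027959644825219732368602827320030413149848922347759751534101139805230000 * p136 + 382020260478936423582723280001813669066746595517742114409583984429888707368245594000 * p137 + 62381636312648349926228097200389631130510571334879782306466798667048764709178582800 * p138 + 897910575670825616240015766372471393612567530829259057413212536502830831840361748000 * p139 + 448930236132875228531078112119533609722493422082399454562366072530644100493771294000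 * p140 + 23123223303674192829236760395604029051605856426463943887149355200442810157535664000 * p141 + 63234850076817241602438025924606051900877265346240858606683269836691092698103182000 * p142 + 14706469612711659551446207110594248167807247296574379974753155268407685896445868000 * p143 + 348346783994586836091039387505714589762087086164649704288890533432786658411304708000 * p144 + 38294121662592590364051000067995760691523882326038681337764941413164213251040704000 * p145 + 170225990769567850543208596008958915351084952210710370245986465215990145712332096000 * p146 + 220159287018517887974881271919700923921271461767821602120635753373113616314038902000 * p147 + 459999254849015424083234805667856739886722823229664705053944330557280730780582136000 * p148 + 223473230081871710866321708654503501481601478018545014994967330838033579972276044000 * p149 + 660625447420293685586249930944493516447885307701776442762870324123037067584507144000 * p150 + 614590296530969595902140628509950982471602587214997963901547712387260672947221824000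 * p151 + 3712049700896950098425146137840510006253021307568361271395905284740580436142884000 * p152 + 5298229981504021301281176516438054314268086690455744837481809324988332553986380000 * p153 + 307650121851450654382545921757486849246477005276372878797773027857586896593968900000 * p154 + 3285453096642146496396086844508234591877277393338122911489554753847374017239108000 * p155 + 79633108456535778768025851167086801538532159664920447742947165439126887085289274000 * p156 + 48059860966283637513017854649531562376642577841970820855340527425077351678539790000 * p157 + 48059860966283637513017854649531562376642577841970820855340527425077351678539790000 * p158 + 17470904506466561057713628926330491304686101579729833294136780634442750779008520000 * p159 + 25408901991570123902794815834108099592312937431988598378863230028062205856983430000 * p160 + 22603566206195598299730103513929438558029771447474160078018869024805096866718432000 * p161 + 253333141448290917742685560132943514943571840800012720814693160624636006181427952000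 * p162 + 249992939438553274423547480069328174094382310710606226049712693346908606800311066000 * p163 + 19034163367284854434272364543170531696180784594648602793030848482973025414121952000 * p164 + 1060899401727796344190971479267002370924297037154854866749479345119682007086036000 * p165
  exact lt_irrefl _ h

/-- The middle coefficient `W_5` for six factors, normal form. -/
theorem w5_norm (a b c d e L : ℝ)
    (hE0 : 0 < (1 - c + d - e)) (hE1 : 0 < (1 + 3*a - 2*b)) (hE2 : 0 < (3 + 15*c - 5*d - e)) (hE3 : 0 < (1 - 5*a))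
    (hE4 : 0 < (3 - 15*c - 5*d + e)) (hE5 : 0 < (1 + 3*a + 2*b)) (hE6 : 0 < (1 + c + d + e))
    (c1 : 0 < c*d + L*(a*b)) (c2 : 0 < (2*c*e + d^2) + L*(2*a + b^2)) (c3 : 0 < (2*c + d*e) + L*b)
    (c4 : 0 < (2*c*e + 4*d + e^2) + L*(1 - 2*a)) (c5 : 0 < (c*d + d*e + 2*e) - L*(b + a*b))
    (c6 : 0 < (c^2 + d^2 + e^2 + 2) - L*(a^2 + b^2 + 1))
    (hW0 : 0 ≤ (a*d - b*c)) (hW1 : 0 ≤ (a*e - c)) (hW2 : 0 ≤ (6*a + b*e - d)) (hW3 : 0 ≤ (a*e + c + b))
    (hW4 : 0 ≤ (5*(a*d + b*c) + 3*(b*e + d) + 2))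
    (hn1203 : 0 ≤ ((1 + 3*a - 2*b)*(3 + 15*c - 5*d - e) - 9*((1 - c + d - e)*(1 - 5*a)))) (hn1405 : 0 ≤ ((1 + 3*a - 2*b)*(3 - 15*c - 5*d + e) - 15*((1 - c + d - e)*(1 + 3*a + 2*b)))) (hn2314 : 0 ≤ (3*((3 + 15*c - 5*d - e)*(1 - 5*a)) - 5*((1 + 3*a - 2*b)*(3 - 15*c - 5*d + e)))) (hn3425 : 0 ≤ (3*((1 - 5*a)*(3 - 15*c - 5*d + e)) - 5*((3 + 15*c - 5*d - e)*(1 + 3*a + 2*b)))) (hn2516 : 0 ≤ ((3 + 15*c - 5*d - e)*(1 + 3*a + 2*b) - 15*((1 + 3*a - 2*b)*(1 + c + d + e)))) :
    0 < 3*a*c + 2*b*d + e := by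
  by_contra hcon
  have hNW5 : 0 ≤ (-(3*a*c + 2*b*d + e)) := by linarith
  have h1a : 0 < 1 + a := by linarith
  have h12a : 0 < 1 - 2*a := by linarith
  have hT : 0 < a^2 + b^2 + 1 := by positivity
  rcases le_or_gt b 0 with hb | hb
  · have hmb : 0 ≤ (-b) := by linarith
    rcases le_or_gt 0 a with ha | ha
    · exact w5_1a a b c d e ha hmb hE0 hE1 hE2 hE3 hE4 hE5 hE6 hW1 hW3 hn1405 hn2314 hn3425 hn2516
    · have hma : 0 < (-a) := by linarith
      have hme : 0 ≤ (-e) := by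
        by_contra h
        have h2 : 0 < e := by linarith
        have h3 := mul_pos hma h2
        linarith
      have hp43 : 0 < ((2*c + d*e)*(1 - 2*a) - (2*c*e + 4*d + e^2)*b) := by
        have e1 := mul_pos h12a c3
        have e2 := mul_nonneg hmb c4.le
        linarith
      have hp53 : 0 ≤ ((2*c + d*e)*(-(b + a*b)) - (c*d + d*e + 2*e)*b) := by
        have e0 := mul_nonneg hmb h1a.le
        have e1 := mul_nonneg e0 c3.le
        have e2 := mul_nonneg hmb c5.le
        linarith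
      have hp56 : 0 ≤ ((c^2 + d^2 + e^2 + 2)*(-(b + a*b)) - (c*d + d*e + 2*e)*(-(a^2 + b^2 + 1))) := by
        have e0 := mul_nonneg hmb h1a.le
        have e1 := mul_nonneg e0 c6.le
        have e2 := mul_nonneg hT.le c5.le
        linarith
      exact w5_1b a b c d e hma hmb hme hE0 hE1 hE2 hE3 hE4 hE5 hE6 hW0 hW1 hW2 hW3 hW4 hNW5 hp43 hp53 hp56
  · have hp45 : 0 ≤ ((c*d + d*e + 2*e)*(1 - 2*a) - (2*c*e + 4*d + e^2)*(-(b + a*b))) := by
      have e0 := mul_nonneg hb.le h1a.le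
      have e1 := mul_nonneg e0 c4.le
      have e2 := mul_nonneg h12a.le c5.le
      linarith
    rcases le_or_gt 0 a with ha | ha
    · exact w5_2a a b c d e ha hb hE0 hE1 hE2 hE3 hE4 hE5 hE6 hW1 hW3 hNW5 hp45 hn1203 hn1405 hn2314 hn3425
    · have hma : 0 < (-a) := by linarith
      have hc35 : 0 ≤ (c*d + d*e + 2*e + (1 + a)*(2*c + d*e)) := by
        have e1 := mul_nonneg h1a.le c3.le
        linarith
      rcases le_or_gt e 0 with he | he
      · have hme : 0 ≤ (-e) := by linarith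
        exact w5_3 a b c d e hma hb hme hE0 hE1 hE2 hE3 hE4 hE5 hE6 hW0 hW1 hW2 hW3 hW4 hc35 hp45
      · rcases le_or_gt 0 c with hc | hc
        · exact w5_4 a b c e hma hb hc he hE1 hW1
        · have hmc : 0 < (-c) := by linarith
          rcases le_or_gt 0 d with hd | hd
          · exact w5_5 a b c d e hma hb hmc hd he hE0 hE1 hE2 hE3 hE4 hE5 hE6 hW2 hNW5
          · have hmd : 0 < (-d) := by linarith
            have hp36 : 0 ≤ ((c^2 + d^2 + e^2 + 2)*b - (2*c + d*e)*(-(a^2 + b^2 + 1))) := by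
              have e1 := mul_nonneg hb.le c6.le
              have e2 := mul_nonneg hT.le c3.le
              linarith
            rcases le_or_gt 0 (2*a + b^2) with hb2 | hb2
            · exact w5_6 a b c d e hma hb hmc hmd he hE0 hE1 hE2 hE5 hE6 hW1 hW3 hW4 hNW5 hb2 hc35 hp36 hp45 hn1203
            · have hmb2 : 0 ≤ (-(2*a + b^2)) := by linarith
              have hc13 : 0 ≤ (c*d - a*(2*c + d*e)) := by
                have e1 := mul_nonneg hma.le c3.le
                linarith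
              have hp32 : 0 ≤ ((2*c*e + d^2)*b - (2*c + d*e)*(2*a + b^2)) := by
                have e1 := mul_nonneg hb.le c2.le
                have e2 := mul_nonneg hmb2 c3.le
                linarith
              have hp41 : 0 ≤ ((c*d)*(1 - 2*a) - (2*c*e + 4*d + e^2)*(a*b)) := by
                have e0 := mul_nonneg hma.le hb.le
                have e1 := mul_nonneg e0 c4.le
                have e2 := mul_nonneg h12a.le c1.le
                linarith
              have hp42 : 0 ≤ ((2*c*e + d^2)*(1 - 2*a) - (2*c*e + 4*d + e^2)*(2*a + b^2)) := by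
                have e1 := mul_nonneg h12a.le c2.le
                have e2 := mul_nonneg hmb2 c4.le
                linarith
              exact w5_7 a b c d e hma hb hmc hmd he hE0 hE1 hE2 hE5 hE6 hW1 hW2 hW3 hW4 hNW5 hmb2 hc13 hc35 hp32 hp36 hp41 hp42 hp45 hn1203

/-- The middle coefficient `W_5` for six factors, in the variables `p_j = E_j / binom(6, j)`. -/
theorem six_five (p0 p1 p2 p3 p4 p5 p6 : ℝ) (hp0 : 0 < p0) (hp1 : 0 < p1) (hp2 : 0 < p2) (hp3 : 0 < p3) (hp4 : 0 < p4) (hp5 : 0 < p5) (hp6 : 0 < p6)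
    (hn1 : p0 * p2 ≤ p1 ^ 2)
    (hn2 : p1 * p3 ≤ p2 ^ 2)
    (hn3 : p2 * p4 ≤ p3 ^ 2)
    (hn4 : p3 * p5 ≤ p4 ^ 2)
    (hn5 : p4 * p6 ≤ p5 ^ 2)
    (hc1 : 0 < -1 * p0 ^ 2 + 20 * p0 * p2 - 10 * p0 * p4 - 24 * p1 ^ 2 + 80 * p1 * p3 - 75 * p2 ^ 2 + 10 * p2 * p6 - 80 * p3 * p5 + 75 * p4 ^ 2 - 20 * p4 * p6 + 24 * p5 ^ 2 + p6 ^ 2)
    (hc2 : 0 < 11 * p0 ^ 2 - 130 * p0 * p2 + 10 * p0 * p4 + 2 * p0 * p6 + 156 * p1 ^ 2 - 80 * p1 * p3 - 72 * p1 * p5 + 75 * p2 ^ 2 + 450 * p2 * p4 + 10 * p2 * p6 - 400 * p3 ^ 2 - 80 * p3 * p5 + 75 * p4 ^ 2 - 130 * p4 * p6 + 156 * p5 ^ 2 + 11 * p6 ^ 2)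
    (hc3 : 0 < -11 * p0 ^ 2 + 60 * p0 * p2 + 18 * p0 * p4 - 72 * p1 ^ 2 - 144 * p1 * p3 + 135 * p2 ^ 2 - 18 * p2 * p6 + 144 * p3 * p5 - 135 * p4 ^ 2 - 60 * p4 * p6 + 72 * p5 ^ 2 + 11 * p6 ^ 2)
    (hc4 : 0 < 33 * p0 ^ 2 - 30 * p0 * p2 - 34 * p0 * p4 - 2 * p0 * p6 + 36 * p1 ^ 2 + 272 * p1 * p3 + 72 * p1 * p5 - 255 * p2 ^ 2 - 450 * p2 * p4 - 34 * p2 * p6 + 400 * p3 ^ 2 + 272 * p3 * p5 - 255 * p4 ^ 2 - 30 * p4 * p6 + 36 * p5 ^ 2 + 33 * p6 ^ 2)
    (hc5 : 0 < -33 * p0 ^ 2 - 60 * p0 * p2 - 10 * p0 * p4 + 72 * p1 ^ 2 + 80 * p1 * p3 - 75 * p2 ^ 2 + 10 * p2 * p6 - 80 * p3 * p5 + 75 * p4 ^ 2 + 60 * p4 * p6 - 72 * p5 ^ 2 + 33 * p6 ^ 2)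
    (hc6 : 0 < 231 * p0 ^ 2 + 630 * p0 * p2 + 210 * p0 * p4 + 10 * p0 * p6 - 756 * p1 ^ 2 - 1680 * p1 * p3 - 360 * p1 * p5 + 1575 * p2 ^ 2 + 2250 * p2 * p4 + 210 * p2 * p6 - 2000 * p3 ^ 2 - 1680 * p3 * p5 + 1575 * p4 ^ 2 + 630 * p4 * p6 - 756 * p5 ^ 2 + 231 * p6 ^ 2)
    (hW0 : 0 < p0 * p1 - 10 * p0 * p3 + 5 * p0 * p5 + 15 * p1 * p2 - 45 * p1 * p4 + 5 * p1 * p6 + 50 * p2 * p3 - 45 * p2 * p5 + 50 * p3 * p4 - 10 * p3 * p6 + 15 * p4 * p5 + p5 * p6)
    (hW1 : 0 < -1 * p0 * p1 + 6 * p0 * p3 - p0 * p5 - 9 * p1 * p2 + 9 * p1 * p4 + p1 * p6 - 10 * p2 * p3 - 9 * p2 * p5 + 10 * p3 * p4 - 6 * p3 * p6 + 9 * p4 * p5 + p5 * p6)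
    (hW2 : 0 ≤ 9 * p0 * p1 - 26 * p0 * p3 - 3 * p0 * p5 + 39 * p1 * p2 + 27 * p1 * p4 - 3 * p1 * p6 - 30 * p2 * p3 + 27 * p2 * p5 - 30 * p3 * p4 - 26 * p3 * p6 + 39 * p4 * p5 + 9 * p5 * p6)
    (hW3 : 0 ≤ -3 * p0 * p1 + 2 * p0 * p3 + p0 * p5 - 3 * p1 * p2 - 9 * p1 * p4 - p1 * p6 + 10 * p2 * p3 + 9 * p2 * p5 - 10 * p3 * p4 - 2 * p3 * p6 + 3 * p4 * p5 + 3 * p5 * p6)
    (hW4 : 0 ≤ 21 * p0 * p1 + 14 * p0 * p3 + p0 * p5 - 21 * p1 * p2 - 9 * p1 * p4 + p1 * p6 + 10 * p2 * p3 - 9 * p2 * p5 + 10 * p3 * p4 + 14 * p3 * p6 - 21 * p4 * p5 + 21 * p5 * p6) :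
    0 < -63 * p0 * p1 - 70 * p0 * p3 - 15 * p0 * p5 + 105 * p1 * p2 + 135 * p1 * p4 + 15 * p1 * p6 - 150 * p2 * p3 - 135 * p2 * p5 + 150 * p3 * p4 + 70 * p3 * p6 - 105 * p4 * p5 + 63 * p5 * p6 := by
  have hN12 : 0 ≤ p1 * p2 - p0 * p3 := by
    have h1 : p2 * (p0 * p3) ≤ p2 * (p1 * p2) := by
      have e1 := mul_le_mul_of_nonneg_right hn1 hp3.le
      have e2 := mul_le_mul_of_nonneg_left hn2 hp1.le
      linarith
    have := le_of_mul_le_mul_left h1 hp2
    linarith
  have hN23 : 0 ≤ p2 * p3 - p1 * p4 := by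
    have h1 : p3 * (p1 * p4) ≤ p3 * (p2 * p3) := by
      have e1 := mul_le_mul_of_nonneg_right hn2 hp4.le
      have e2 := mul_le_mul_of_nonneg_left hn3 hp2.le
      linarith
    have := le_of_mul_le_mul_left h1 hp3
    linarith
  have hN34 : 0 ≤ p3 * p4 - p2 * p5 := by
    have h1 : p4 * (p2 * p5) ≤ p4 * (p3 * p4) := by
      have e1 := mul_le_mul_of_nonneg_right hn3 hp5.le
      have e2 := mul_le_mul_of_nonneg_left hn4 hp3.le
      linarith
    have := le_of_mul_le_mul_left h1 hp4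
    linarith
  have hN45 : 0 ≤ p4 * p5 - p3 * p6 := by
    have h1 : p5 * (p3 * p6) ≤ p5 * (p4 * p5) := by
      have e1 := mul_le_mul_of_nonneg_right hn4 hp6.le
      have e2 := mul_le_mul_of_nonneg_left hn5 hp4.le
      linarith
    have := le_of_mul_le_mul_left h1 hp5
    linarith
  have hN14 : 0 ≤ p1 * p4 - p0 * p5 := by
    have h1 : (p2 * p3) * (p0 * p5) ≤ (p2 * p3) * (p1 * p4) := by
      have e1 := mul_le_mul (sub_nonneg.mp hN12) (sub_nonneg.mp hN34) (by positivity) (by positivity)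
      linarith
    have := le_of_mul_le_mul_left h1 (mul_pos hp2 hp3)
    linarith
  have hN25 : 0 ≤ p2 * p5 - p1 * p6 := by
    have h1 : (p3 * p4) * (p1 * p6) ≤ (p3 * p4) * (p2 * p5) := by
      have e1 := mul_le_mul (sub_nonneg.mp hN23) (sub_nonneg.mp hN45) (by positivity) (by positivity)
      linarith
    have := le_of_mul_le_mul_left h1 (mul_pos hp3 hp4)
    linarith
  obtain ⟨s, hs⟩ : ∃ s, s = 10 * p0 + 30 * p2 + 30 * p4 + 10 * p6 := ⟨_, rfl⟩
  obtain ⟨t, ht⟩ : ∃ t, t = 30 * p1 + 60 * p3 + 30 * p5 := ⟨_, rfl⟩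
  have hs0 : 0 < s := by rw [hs]; positivity
  have ht0 : 0 < t := by rw [ht]; positivity
  have hst : 0 < s * t := mul_pos hs0 ht0
  have hss : 0 < s ^ 2 := pow_pos hs0 2
  obtain ⟨x0, hx0⟩ : ∃ x, x = -p0 + 15 * p2 - 15 * p4 + p6 := ⟨_, rfl⟩
  obtain ⟨x1, hx1⟩ : ∃ x, x = 6 * p0 - 30 * p2 - 30 * p4 + 6 * p6 := ⟨_, rfl⟩
  obtain ⟨x2, hx2⟩ : ∃ x, x = -15 * p0 - 15 * p2 + 15 * p4 + 15 * p6 := ⟨_, rfl⟩
  obtain ⟨y0, hy0⟩ : ∃ x, x = 6 * p1 - 20 * p3 + 6 * p5 := ⟨_, rfl⟩
  obtain ⟨y1, hy1⟩ : ∃ x, x = -24 * p1 + 24 * p5 := ⟨_, rfl⟩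
  have hE0 : 0 < (1 - x0/s + x1/s - x2/s) := by
    have e1 : 1 - x0/s + x1/s - x2/s = (s - x0 + x1 - x2)/s := by field_simp <;> ring
    have e2 : s - x0 + x1 - x2 = 32 * p0 := by rw [hx0, hx1, hx2, hs]; ring
    rw [e1, e2]; positivity
  have hE1 : 0 < (1 + 3*(y0/t) - 2*(y1/t)) := by
    have e1 : 1 + 3*(y0/t) - 2*(y1/t) = (t + 3*y0 - 2*y1)/t := by field_simp <;> ring
    have e2 : t + 3*y0 - 2*y1 = 96 * p1 := by rw [hy0, hy1, ht]; ring
    rw [e1, e2]; positivity
  have hE2 : 0 < (3 + 15*(x0/s) - 5*(x1/s) - x2/s) := by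
    have e1 : 3 + 15*(x0/s) - 5*(x1/s) - x2/s = (3*s + 15*x0 - 5*x1 - x2)/s := by field_simp <;> ring
    have e2 : 3*s + 15*x0 - 5*x1 - x2 = 480 * p2 := by rw [hx0, hx1, hx2, hs]; ring
    rw [e1, e2]; positivity
  have hE3 : 0 < (1 - 5*(y0/t)) := by
    have e1 : 1 - 5*(y0/t) = (t - 5*y0)/t := by field_simp <;> ring
    have e2 : t - 5*y0 = 160 * p3 := by rw [hy0, ht]; ring
    rw [e1, e2]; positivity
  have hE4 : 0 < (3 - 15*(x0/s) - 5*(x1/s) + x2/s) := by
    have e1 : 3 - 15*(x0/s) - 5*(x1/s) + x2/s = (3*s - 15*x0 - 5*x1 + x2)/s := by field_simp <;> ring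
    have e2 : 3*s - 15*x0 - 5*x1 + x2 = 480 * p4 := by rw [hx0, hx1, hx2, hs]; ring
    rw [e1, e2]; positivity
  have hE5 : 0 < (1 + 3*(y0/t) + 2*(y1/t)) := by
    have e1 : 1 + 3*(y0/t) + 2*(y1/t) = (t + 3*y0 + 2*y1)/t := by field_simp <;> ring
    have e2 : t + 3*y0 + 2*y1 = 96 * p5 := by rw [hy0, hy1, ht]; ring
    rw [e1, e2]; positivity
  have hE6 : 0 < (1 + x0/s + x1/s + x2/s) := by
    have e1 : 1 + x0/s + x1/s + x2/s = (s + x0 + x1 + x2)/s := by field_simp <;> ring
    have e2 : s + x0 + x1 + x2 = 32 * p6 := by rw [hx0, hx1, hx2, hs]; ring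
    rw [e1, e2]; positivity
  have c1 : 0 < (x0/s)*(x1/s) + ((t/s)^2)*((y0/t)*(y1/t)) := by
    have e1 : (x0/s)*(x1/s) + ((t/s)^2)*((y0/t)*(y1/t)) = (x0*x1 + y0*y1)/s^2 := by field_simp <;> ring
    have e2 : x0*x1 + y0*y1 = 6 * (-1 * p0 ^ 2 + 20 * p0 * p2 - 10 * p0 * p4 - 24 * p1 ^ 2 + 80 * p1 * p3 - 75 * p2 ^ 2 + 10 * p2 * p6 - 80 * p3 * p5 + 75 * p4 ^ 2 - 20 * p4 * p6 + 24 * p5 ^ 2 + p6 ^ 2) := by rw [hx0, hx1, hy0, hy1]; ring
    rw [e1, e2]; exact div_pos (mul_pos (by norm_num) hc1) hss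
  have c2 : 0 < (2*(x0/s)*(x2/s) + (x1/s)^2) + ((t/s)^2)*(2*(y0/t) + (y1/t)^2) := by
    have e1 : (2*(x0/s)*(x2/s) + (x1/s)^2) + ((t/s)^2)*(2*(y0/t) + (y1/t)^2) = (2*x0*x2 + x1^2 + 2*y0*t + y1^2)/s^2 := by field_simp <;> ring
    have e2 : 2*x0*x2 + x1^2 + 2*y0*t + y1^2 = 6 * (11 * p0 ^ 2 - 130 * p0 * p2 + 10 * p0 * p4 + 2 * p0 * p6 + 156 * p1 ^ 2 - 80 * p1 * p3 - 72 * p1 * p5 + 75 * p2 ^ 2 + 450 * p2 * p4 + 10 * p2 * p6 - 400 * p3 ^ 2 - 80 * p3 * p5 + 75 * p4 ^ 2 - 130 * p4 * p6 + 156 * p5 ^ 2 + 11 * p6 ^ 2) := by rw [hx0, hx1, hx2, hy0, hy1, ht]; ring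
    rw [e1, e2]; exact div_pos (mul_pos (by norm_num) hc2) hss
  have c3 : 0 < (2*(x0/s) + (x1/s)*(x2/s)) + ((t/s)^2)*(y1/t) := by
    have e1 : (2*(x0/s) + (x1/s)*(x2/s)) + ((t/s)^2)*(y1/t) = (2*s*x0 + x1*x2 + y1*t)/s^2 := by field_simp <;> ring
    have e2 : 2*s*x0 + x1*x2 + y1*t = 10 * (-11 * p0 ^ 2 + 60 * p0 * p2 + 18 * p0 * p4 - 72 * p1 ^ 2 - 144 * p1 * p3 + 135 * p2 ^ 2 - 18 * p2 * p6 + 144 * p3 * p5 - 135 * p4 ^ 2 - 60 * p4 * p6 + 72 * p5 ^ 2 + 11 * p6 ^ 2) := by rw [hx0, hx1, hx2, hs, hy1, ht]; ring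
    rw [e1, e2]; exact div_pos (mul_pos (by norm_num) hc3) hss
  have c4 : 0 < (2*(x0/s)*(x2/s) + 4*(x1/s) + (x2/s)^2) + ((t/s)^2)*(1 - 2*(y0/t)) := by
    have e1 : (2*(x0/s)*(x2/s) + 4*(x1/s) + (x2/s)^2) + ((t/s)^2)*(1 - 2*(y0/t)) = (2*x0*x2 + 4*s*x1 + x2^2 + t^2 - 2*y0*t)/s^2 := by field_simp <;> ring
    have e2 : 2*x0*x2 + 4*s*x1 + x2^2 + t^2 - 2*y0*t = 15 * (33 * p0 ^ 2 - 30 * p0 * p2 - 34 * p0 * p4 - 2 * p0 * p6 + 36 * p1 ^ 2 + 272 * p1 * p3 + 72 * p1 * p5 - 255 * p2 ^ 2 - 450 * p2 * p4 - 34 * p2 * p6 + 400 * p3 ^ 2 + 272 * p3 * p5 - 255 * p4 ^ 2 - 30 * p4 * p6 + 36 * p5 ^ 2 + 33 * p6 ^ 2) := by rw [hx0, hx1, hx2, hs, hy0, ht]; ring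
    rw [e1, e2]; exact div_pos (mul_pos (by norm_num) hc4) hss
  have c5 : 0 < ((x0/s)*(x1/s) + (x1/s)*(x2/s) + 2*(x2/s)) - ((t/s)^2)*((y1/t) + (y0/t)*(y1/t)) := by
    have e1 : ((x0/s)*(x1/s) + (x1/s)*(x2/s) + 2*(x2/s)) - ((t/s)^2)*((y1/t) + (y0/t)*(y1/t)) = (x0*x1 + x1*x2 + 2*s*x2 - y0*y1 - y1*t)/s^2 := by field_simp <;> ring
    have e2 : x0*x1 + x1*x2 + 2*s*x2 - y0*y1 - y1*t = 12 * (-33 * p0 ^ 2 - 60 * p0 * p2 - 10 * p0 * p4 + 72 * p1 ^ 2 + 80 * p1 * p3 - 75 * p2 ^ 2 + 10 * p2 * p6 - 80 * p3 * p5 + 75 * p4 ^ 2 + 60 * p4 * p6 - 72 * p5 ^ 2 + 33 * p6 ^ 2) := by rw [hx0, hx1, hx2, hs, hy0, hy1, ht]; ring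
    rw [e1, e2]; exact div_pos (mul_pos (by norm_num) hc5) hss
  have c6 : 0 < ((x0/s)^2 + (x1/s)^2 + (x2/s)^2 + 2) - ((t/s)^2)*((y0/t)^2 + (y1/t)^2 + 1) := by
    have e1 : ((x0/s)^2 + (x1/s)^2 + (x2/s)^2 + 2) - ((t/s)^2)*((y0/t)^2 + (y1/t)^2 + 1) = (x0^2 + x1^2 + x2^2 + 2*s^2 - y0^2 - y1^2 - t^2)/s^2 := by field_simp <;> ring
    have e2 : x0^2 + x1^2 + x2^2 + 2*s^2 - y0^2 - y1^2 - t^2 = 2 * (231 * p0 ^ 2 + 630 * p0 * p2 + 210 * p0 * p4 + 10 * p0 * p6 - 756 * p1 ^ 2 - 1680 * p1 * p3 - 360 * p1 * p5 + 1575 * p2 ^ 2 + 2250 * p2 * p4 + 210 * p2 * p6 - 2000 * p3 ^ 2 - 1680 * p3 * p5 + 1575 * p4 ^ 2 + 630 * p4 * p6 - 756 * p5 ^ 2 + 231 * p6 ^ 2) := by rw [hx0, hx1, hx2, hs, hy0, hy1, ht]; ring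
    rw [e1, e2]; exact div_pos (mul_pos (by norm_num) hc6) hss
  have w0 : 0 ≤ ((y0/t)*(x1/s) - (y1/t)*(x0/s)) := by
    have e1 : ((y0/t)*(x1/s) - (y1/t)*(x0/s)) = (y0*x1 - y1*x0)/(s*t) := by field_simp <;> ring
    have e2 : y0*x1 - y1*x0 = 12 * (p0 * p1 - 10 * p0 * p3 + 5 * p0 * p5 + 15 * p1 * p2 - 45 * p1 * p4 + 5 * p1 * p6 + 50 * p2 * p3 - 45 * p2 * p5 + 50 * p3 * p4 - 10 * p3 * p6 + 15 * p4 * p5 + p5 * p6) := by rw [hx0, hx1, hy0, hy1]; ring
    rw [e1, e2]; exact div_nonneg (mul_nonneg (by norm_num) hW0.le) hst.le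
  have w1 : 0 ≤ ((y0/t)*(x2/s) - (x0/s)) := by
    have e1 : ((y0/t)*(x2/s) - (x0/s)) = (y0*x2 - t*x0)/(s*t) := by field_simp <;> ring
    have e2 : y0*x2 - t*x0 = 60 * (-1 * p0 * p1 + 6 * p0 * p3 - p0 * p5 - 9 * p1 * p2 + 9 * p1 * p4 + p1 * p6 - 10 * p2 * p3 - 9 * p2 * p5 + 10 * p3 * p4 - 6 * p3 * p6 + 9 * p4 * p5 + p5 * p6) := by rw [hx0, hx2, hy0, ht]; ring
    rw [e1, e2]; exact div_nonneg (mul_nonneg (by norm_num) hW1.le) hst.le
  have w2 : 0 ≤ (6*(y0/t) + (y1/t)*(x2/s) - (x1/s)) := by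
    have e1 : (6*(y0/t) + (y1/t)*(x2/s) - (x1/s)) = (6*y0*s + y1*x2 - t*x1)/(s*t) := by field_simp <;> ring
    have e2 : 6*y0*s + y1*x2 - t*x1 = 60 * (9 * p0 * p1 - 26 * p0 * p3 - 3 * p0 * p5 + 39 * p1 * p2 + 27 * p1 * p4 - 3 * p1 * p6 - 30 * p2 * p3 + 27 * p2 * p5 - 30 * p3 * p4 - 26 * p3 * p6 + 39 * p4 * p5 + 9 * p5 * p6) := by rw [hx1, hx2, hs, hy0, hy1, ht]; ring
    rw [e1, e2]; exact div_nonneg (mul_nonneg (by norm_num) hW2) hst.le
  have w3 : 0 ≤ ((y0/t)*(x2/s) + (x0/s) + (y1/t)) := by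
    have e1 : ((y0/t)*(x2/s) + (x0/s) + (y1/t)) = (y0*x2 + t*x0 + y1*s)/(s*t) := by field_simp <;> ring
    have e2 : y0*x2 + t*x0 + y1*s = 120 * (-3 * p0 * p1 + 2 * p0 * p3 + p0 * p5 - 3 * p1 * p2 - 9 * p1 * p4 - p1 * p6 + 10 * p2 * p3 + 9 * p2 * p5 - 10 * p3 * p4 - 2 * p3 * p6 + 3 * p4 * p5 + 3 * p5 * p6) := by rw [hx0, hx2, hs, hy0, hy1, ht]; ring
    rw [e1, e2]; exact div_nonneg (mul_nonneg (by norm_num) hW3) hst.le
  have w4 : 0 ≤ (5*((y0/t)*(x1/s) + (y1/t)*(x0/s)) + 3*((y1/t)*(x2/s) + (x1/s)) + 2) := by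
    have e1 : (5*((y0/t)*(x1/s) + (y1/t)*(x0/s)) + 3*((y1/t)*(x2/s) + (x1/s)) + 2) = (5*(y0*x1 + y1*x0) + 3*(y1*x2 + t*x1) + 2*t*s)/(s*t) := by field_simp <;> ring
    have e2 : 5*(y0*x1 + y1*x0) + 3*(y1*x2 + t*x1) + 2*t*s = 120 * (21 * p0 * p1 + 14 * p0 * p3 + p0 * p5 - 21 * p1 * p2 - 9 * p1 * p4 + p1 * p6 + 10 * p2 * p3 - 9 * p2 * p5 + 10 * p3 * p4 + 14 * p3 * p6 - 21 * p4 * p5 + 21 * p5 * p6) := by rw [hx0, hx1, hx2, hs, hy0, hy1, ht]; ring
    rw [e1, e2]; exact div_nonneg (mul_nonneg (by norm_num) hW4) hst.le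
  have n1203 : 0 ≤ ((1 + 3*(y0/t) - 2*(y1/t))*(3 + 15*(x0/s) - 5*(x1/s) - x2/s) - 9*((1 - x0/s + x1/s - x2/s)*(1 - 5*(y0/t)))) := by
    have e1 : ((1 + 3*(y0/t) - 2*(y1/t))*(3 + 15*(x0/s) - 5*(x1/s) - x2/s) - 9*((1 - x0/s + x1/s - x2/s)*(1 - 5*(y0/t)))) = ((t + 3*y0 - 2*y1)*(3*s + 15*x0 - 5*x1 - x2) - 9*((s - x0 + x1 - x2)*(t - 5*y0)))/(s*t) := by field_simp <;> ring
    have e2 : (t + 3*y0 - 2*y1)*(3*s + 15*x0 - 5*x1 - x2) - 9*((s - x0 + x1 - x2)*(t - 5*y0)) = 46080 * (p1 * p2 - p0 * p3) := by rw [hx0, hx1, hx2, hs, hy0, hy1, ht]; ring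
    rw [e1, e2]; exact div_nonneg (mul_nonneg (by norm_num) hN12) hst.le
  have n1405 : 0 ≤ ((1 + 3*(y0/t) - 2*(y1/t))*(3 - 15*(x0/s) - 5*(x1/s) + x2/s) - 15*((1 - x0/s + x1/s - x2/s)*(1 + 3*(y0/t) + 2*(y1/t)))) := by
    have e1 : ((1 + 3*(y0/t) - 2*(y1/t))*(3 - 15*(x0/s) - 5*(x1/s) + x2/s) - 15*((1 - x0/s + x1/s - x2/s)*(1 + 3*(y0/t) + 2*(y1/t)))) = ((t + 3*y0 - 2*y1)*(3*s - 15*x0 - 5*x1 + x2) - 15*((s - x0 + x1 - x2)*(t + 3*y0 + 2*y1)))/(s*t) := by field_simp <;> ring
    have e2 : (t + 3*y0 - 2*y1)*(3*s - 15*x0 - 5*x1 + x2) - 15*((s - x0 + x1 - x2)*(t + 3*y0 + 2*y1)) = 46080 * (p1 * p4 - p0 * p5) := by rw [hx0, hx1, hx2, hs, hy0, hy1, ht]; ring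
    rw [e1, e2]; exact div_nonneg (mul_nonneg (by norm_num) hN14) hst.le
  have n2314 : 0 ≤ (3*((3 + 15*(x0/s) - 5*(x1/s) - x2/s)*(1 - 5*(y0/t))) - 5*((1 + 3*(y0/t) - 2*(y1/t))*(3 - 15*(x0/s) - 5*(x1/s) + x2/s))) := by
    have e1 : (3*((3 + 15*(x0/s) - 5*(x1/s) - x2/s)*(1 - 5*(y0/t))) - 5*((1 + 3*(y0/t) - 2*(y1/t))*(3 - 15*(x0/s) - 5*(x1/s) + x2/s))) = (3*((3*s + 15*x0 - 5*x1 - x2)*(t - 5*y0)) - 5*((t + 3*y0 - 2*y1)*(3*s - 15*x0 - 5*x1 + x2)))/(s*t) := by field_simp <;> ring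
    have e2 : 3*((3*s + 15*x0 - 5*x1 - x2)*(t - 5*y0)) - 5*((t + 3*y0 - 2*y1)*(3*s - 15*x0 - 5*x1 + x2)) = 230400 * (p2 * p3 - p1 * p4) := by rw [hx0, hx1, hx2, hs, hy0, hy1, ht]; ring
    rw [e1, e2]; exact div_nonneg (mul_nonneg (by norm_num) hN23) hst.le
  have n3425 : 0 ≤ (3*((1 - 5*(y0/t))*(3 - 15*(x0/s) - 5*(x1/s) + x2/s)) - 5*((3 + 15*(x0/s) - 5*(x1/s) - x2/s)*(1 + 3*(y0/t) + 2*(y1/t)))) := by
    have e1 : (3*((1 - 5*(y0/t))*(3 - 15*(x0/s) - 5*(x1/s) + x2/s)) - 5*((3 + 15*(x0/s) - 5*(x1/s) - x2/s)*(1 + 3*(y0/t) + 2*(y1/t)))) = (3*((t - 5*y0)*(3*s - 15*x0 - 5*x1 + x2)) - 5*((3*s + 15*x0 - 5*x1 - x2)*(t + 3*y0 + 2*y1)))/(s*t) := by field_simp <;> ring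
    have e2 : 3*((t - 5*y0)*(3*s - 15*x0 - 5*x1 + x2)) - 5*((3*s + 15*x0 - 5*x1 - x2)*(t + 3*y0 + 2*y1)) = 230400 * (p3 * p4 - p2 * p5) := by rw [hx0, hx1, hx2, hs, hy0, hy1, ht]; ring
    rw [e1, e2]; exact div_nonneg (mul_nonneg (by norm_num) hN34) hst.le
  have n2516 : 0 ≤ ((3 + 15*(x0/s) - 5*(x1/s) - x2/s)*(1 + 3*(y0/t) + 2*(y1/t)) - 15*((1 + 3*(y0/t) - 2*(y1/t))*(1 + x0/s + x1/s + x2/s))) := by
    have e1 : ((3 + 15*(x0/s) - 5*(x1/s) - x2/s)*(1 + 3*(y0/t) + 2*(y1/t)) - 15*((1 + 3*(y0/t) - 2*(y1/t))*(1 + x0/s + x1/s + x2/s))) = ((3*s + 15*x0 - 5*x1 - x2)*(t + 3*y0 + 2*y1) - 15*((t + 3*y0 - 2*y1)*(s + x0 + x1 + x2)))/(s*t) := by field_simp <;> ring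
    have e2 : (3*s + 15*x0 - 5*x1 - x2)*(t + 3*y0 + 2*y1) - 15*((t + 3*y0 - 2*y1)*(s + x0 + x1 + x2)) = 46080 * (p2 * p5 - p1 * p6) := by rw [hx0, hx1, hx2, hs, hy0, hy1, ht]; ring
    rw [e1, e2]; exact div_nonneg (mul_nonneg (by norm_num) hN25) hst.le
  have key := w5_norm (y0/t) (y1/t) (x0/s) (x1/s) (x2/s) ((t/s)^2) hE0 hE1 hE2 hE3 hE4 hE5 hE6 c1 c2 c3 c4 c5 c6 w0 w1 w2 w3 w4
    n1203 n1405 n2314 n3425 n2516
  have e1 : 3*(y0/t)*(x0/s) + 2*(y1/t)*(x1/s) + x2/s = (3*y0*x0 + 2*y1*x1 + t*x2)/(s*t) := by field_simp <;> ring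
  have e2 : 3*y0*x0 + 2*y1*x1 + t*x2 = 12 * (-63 * p0 * p1 - 70 * p0 * p3 - 15 * p0 * p5 + 105 * p1 * p2 + 135 * p1 * p4 + 15 * p1 * p6 - 150 * p2 * p3 - 135 * p2 * p5 + 150 * p3 * p4 + 70 * p3 * p6 - 105 * p4 * p5 + 63 * p5 * p6) := by rw [hx0, hx1, hx2, hy0, hy1, ht]; ring
  rw [e1, e2] at key
  have e3 := (div_pos_iff_of_pos_right hst).mp key
  linarith

end Pool.Agent.Lib.MP_fe2d2a_anEV6
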